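import Mathlib

/-!
# The first term of a chain in another chain

`G 0 x = 1`, `G 1 x = x`, `G (i + 2) x = x * G (i + 1) x - G i x`; the chain of `k` is `G i k`,
`i = 2, 3, ...`.  Its first term is `k ^ 2 - 1`.  We show that for `k ≥ 3` the number `G i k` is not of
the form `l ^ 2 - 1` if `3 ≤ i ≤ 10` or if `i` is a positive multiple of `4`.
-/

namespace Pool.Agent.Results.MP_83ba34_nt.FirstTerms

/-- The polynomials of the problem. -/
def G : ℕ → ℤ → ℤ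
  | 0, _ => 1
  | 1, x => x
  | (n + 2), x => x * G (n + 1) x - G n x

/-- The companion sequence. -/
def V : ℕ → ℤ → ℤ
  | 0, _ => 2
  | 1, x => x
  | (n + 2), x => x * V (n + 1) x - V n x

lemma G_add (n : ℕ) (x : ℤ) : G (n + 2) x = x * G (n + 1) x - G n x := by rw [G]

lemma V_add (n : ℕ) (x : ℤ) : V (n + 2) x = x * V (n + 1) x - V n x := by rw [V]

lemma V_inv (m : ℕ) (x : ℤ) :
    V (m + 1) x ^ 2 - x * V (m + 1) x * V m x + V m x ^ 2 = 4 - x ^ 2 := by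
  induction m with
  | zero => simp only [zero_add, V]; ring
  | succ m ih =>
    have h := V_add m x
    rw [show m + 1 + 1 = m + 2 from rfl, h]
    linear_combination ih

lemma V_double (m : ℕ) (x : ℤ) :
    V (2 * m) x = V m x ^ 2 - 2 ∧ V (2 * m + 1) x = V (m + 1) x * V m x - x := by
  induction m with
  | zero => constructor <;> simp only [mul_zero, zero_add, V] <;> ring
  | succ m ih =>
    obtain ⟨h1, h2⟩ := ih
    have h3 := V_inv m x
    have e1 : V (2 * (m + 1)) x = x * V (2 * m + 1) x - V (2 * m) x := V_add (2 * m) x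
    have e2 : V (2 * (m + 1) + 1) x = x * V (2 * (m + 1)) x - V (2 * m + 1) x := V_add (2 * m + 1) x
    have e3 : V (m + 1 + 1) x = x * V (m + 1) x - V m x := V_add m x
    have f1 : V (2 * (m + 1)) x = V (m + 1) x ^ 2 - 2 := by
      rw [e1, h1, h2]; linear_combination -h3
    refine ⟨f1, ?_⟩
    rw [e2, f1, h2, e3]; ring

lemma GV_inv (m : ℕ) (x : ℤ) :
    G (m + 1) x * V (m + 1) x - x * G (m + 1) x * V m x + G m x * V m x = 2 - x ^ 2 := by
  induction m with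
  | zero => simp only [zero_add, V, G]; ring
  | succ m ih =>
    have h := V_add m x
    have h' := G_add m x
    rw [show m + 1 + 1 = m + 2 from rfl, h, h']
    linear_combination ih

lemma GV_cas (m : ℕ) (x : ℤ) : G (m + 1) x * V m x - G m x * V (m + 1) x = x := by
  induction m with
  | zero => simp only [zero_add, V, G]; ring
  | succ m ih =>
    have h := V_add m x
    have h' := G_add m x
    rw [show m + 1 + 1 = m + 2 from rfl, h, h']
    linear_combination ih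

lemma G_double (m : ℕ) (x : ℤ) :
    G (2 * m) x = G m x * V m x - 1 ∧ G (2 * m + 1) x = G (m + 1) x * V m x - x := by
  induction m with
  | zero => constructor <;> simp only [mul_zero, zero_add, V, G] <;> ring
  | succ m ih =>
    obtain ⟨h1, h2⟩ := ih
    have h3 := GV_inv m x
    have h4 := GV_cas (m + 1) x
    have e1 : G (2 * (m + 1)) x = x * G (2 * m + 1) x - G (2 * m) x := G_add (2 * m) x
    have e2 : G (2 * (m + 1) + 1) x = x * G (2 * (m + 1)) x - G (2 * m + 1) x := G_add (2 * m + 1) x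
    have e3 : V (m + 1 + 1) x = x * V (m + 1) x - V m x := V_add m x
    have f1 : G (2 * (m + 1)) x = G (m + 1) x * V (m + 1) x - 1 := by
      rw [e1, h1, h2]; linear_combination -h3
    refine ⟨f1, ?_⟩
    rw [e3] at h4
    rw [e2, f1, h2]; linear_combination -h4

lemma coprime_x (r : ℕ) (x : ℤ) : IsCoprime (G (2 * r) x) x := by
  induction r with
  | zero => simp only [mul_zero, G]; exact isCoprime_one_left
  | succ r ih =>
    have e1 : G (2 * (r + 1)) x = -G (2 * r) x + x * G (2 * r + 1) x := by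
      have := G_add (2 * r) x
      rw [show 2 * (r + 1) = 2 * r + 2 by ring, this]; ring
    rw [e1]
    exact IsCoprime.add_mul_left_left ih.neg_left _

lemma coprime_GV (r : ℕ) (x : ℤ) : IsCoprime (G (2 * r) x) (V (2 * r) x) := by
  have h := coprime_x r x
  have h2 := GV_cas (2 * r) x
  have h3 : IsCoprime (G (2 * r) x) (G (2 * r + 1) x * V (2 * r) x) := by
    have e : G (2 * r + 1) x * V (2 * r) x = x + G (2 * r) x * V (2 * r + 1) x := by
      linear_combination h2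
    rw [e]
    exact IsCoprime.add_mul_left_right h _
  exact IsCoprime.of_mul_right_right h3

lemma V_ge (n : ℕ) (x : ℤ) (hx : 2 ≤ x) : 2 ≤ V n x ∧ V n x ≤ V (n + 1) x := by
  induction n with
  | zero => simp only [zero_add, V]; exact ⟨le_refl _, hx⟩
  | succ n ih =>
    obtain ⟨h1, h2⟩ := ih
    refine ⟨by linarith, ?_⟩
    have := V_add n x
    rw [show n + 1 + 1 = n + 2 from rfl, this]
    nlinarith

/-- No square lies strictly between two consecutive squares. -/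
lemma no_sq (a s : ℤ) (ha : 0 ≤ a) (h1 : a ^ 2 < s ^ 2) (h2 : s ^ 2 < (a + 1) ^ 2) : False := by
  have h3 : a < |s| := by
    have := sq_lt_sq.1 h1
    rwa [abs_of_nonneg ha] at this
  have h4 : |s| < a + 1 := abs_lt_of_sq_lt_sq h2 (by linarith)
  omega

/-- If `a * b = s ^ 2` with coprime `a`, `b` and `0 < b`, then `b` is not strictly between two
consecutive squares. -/
lemma no_factor (a b s c : ℤ) (hab : IsCoprime a b) (h : a * b = s ^ 2) (hb : 0 < b) (hc : 0 ≤ c)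
    (h1 : c ^ 2 < b) (h2 : b < (c + 1) ^ 2) : False := by
  obtain ⟨t, ht | ht⟩ := Int.sq_of_isCoprime hab.symm (show b * a = s ^ 2 by linarith)
  · exact no_sq c t hc (by linarith) (by linarith)
  · nlinarith [sq_nonneg t]

lemma case_four (r : ℕ) (hr : 0 < r) (k l : ℤ) (hk : 3 ≤ k) : G (4 * r) k ≠ l ^ 2 - 1 := by
  intro h
  have h1 := (G_double (2 * r) k).1
  rw [show 2 * (2 * r) = 4 * r by ring] at h1
  have h2 : G (2 * r) k * V (2 * r) k = l ^ 2 := by linarith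
  have h3 := (V_double r k).1
  obtain ⟨m, rfl⟩ : ∃ m, r = m + 1 := ⟨r - 1, by omega⟩
  have h4 := V_ge (m + 1) k (by linarith)
  have h5 : 3 ≤ V (m + 1) k := by
    clear h h1 h2 h3 h4 hr
    induction m with
    | zero => simp only [zero_add, V]; exact hk
    | succ m ih => exact le_trans ih (V_ge (m + 1) k (by linarith)).2
  exact no_factor _ _ l (V (m + 1) k - 1) (coprime_GV (m + 1) k) h2 (by rw [h3]; nlinarith)
    (by linarith) (by rw [h3]; nlinarith) (by rw [h3]; nlinarith)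

lemma case_three (k l : ℤ) (hk : 3 ≤ k) : G 3 k ≠ l ^ 2 - 1 := by
  intro h
  have e : G 3 k = (k - 1) * (k ^ 2 + k - 1) - 1 := by simp only [G]; ring
  have h2 : (k - 1) * (k ^ 2 + k - 1) = l ^ 2 := by linarith
  refine no_factor _ _ l k ⟨-(k + 2), 1, by ring⟩ h2 (by nlinarith) (by linarith) (by nlinarith)
    (by nlinarith)

lemma case_five (k l : ℤ) (hk : 3 ≤ k) : G 5 k ≠ l ^ 2 - 1 := by
  intro h
  have e : G 5 k = (k ^ 3 + k ^ 2 - 2 * k - 1) * (k ^ 2 - k - 1) - 1 := by simp only [G]; ring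
  have h2 : (k ^ 3 + k ^ 2 - 2 * k - 1) * (k ^ 2 - k - 1) = l ^ 2 := by linarith
  refine no_factor _ _ l (k - 1) ⟨-(k - 2), k ^ 2 - 3, by ring⟩ h2 (by nlinarith) (by linarith)
    (by nlinarith) (by nlinarith)

lemma case_six (k l : ℤ) (hk : 3 ≤ k) : G 6 k ≠ l ^ 2 - 1 := by
  intro h
  have e : G 6 k = k ^ 2 * ((k ^ 2 - 2) * (k ^ 2 - 3)) - 1 := by simp only [G]; ring
  have h2 : k ^ 2 * ((k ^ 2 - 2) * (k ^ 2 - 3)) = l ^ 2 := by linarith
  have h3 : k ∣ l := (Int.pow_dvd_pow_iff (two_ne_zero)).1 ⟨_, h2.symm⟩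
  obtain ⟨s, rfl⟩ := h3
  have h4 : (k ^ 2 - 2) * (k ^ 2 - 3) = s ^ 2 := by
    have : k ^ 2 * ((k ^ 2 - 2) * (k ^ 2 - 3)) = k ^ 2 * s ^ 2 := by rw [h2]; ring
    exact mul_left_cancel₀ (by positivity) this
  exact no_sq (k ^ 2 - 3) s (by nlinarith) (by rw [← h4]; nlinarith) (by rw [← h4]; nlinarith)

lemma case_seven (k l : ℤ) (hk : 3 ≤ k) : G 7 k ≠ l ^ 2 - 1 := by
  intro h
  have e : G 7 k = (k ^ 3 - k ^ 2 - 2 * k + 1) * (k ^ 4 + k ^ 3 - 3 * k ^ 2 - 2 * k + 1) - 1 := by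
    simp only [G]; ring
  have h2 : (k ^ 3 - k ^ 2 - 2 * k + 1) * (k ^ 4 + k ^ 3 - 3 * k ^ 2 - 2 * k + 1) = l ^ 2 := by
    linarith
  have hc : IsCoprime (k ^ 3 - k ^ 2 - 2 * k + 1) (k ^ 4 + k ^ 3 - 3 * k ^ 2 - 2 * k + 1) :=
    ⟨-((k + 2) * (k ^ 2 - 2)), k ^ 2 - 3, by ring⟩
  obtain ⟨t, ht | ht⟩ := Int.sq_of_isCoprime hc.symm
    (show (k ^ 4 + k ^ 3 - 3 * k ^ 2 - 2 * k + 1) * (k ^ 3 - k ^ 2 - 2 * k + 1) = l ^ 2 by linarith)
  · refine no_sq (2 * k ^ 2 + k - 4) (2 * t) (by nlinarith) ?_ ?_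
    · have : (2 * t) ^ 2 = 4 * (k ^ 4 + k ^ 3 - 3 * k ^ 2 - 2 * k + 1) := by rw [ht]; ring
      rw [this]; nlinarith
    · have : (2 * t) ^ 2 = 4 * (k ^ 4 + k ^ 3 - 3 * k ^ 2 - 2 * k + 1) := by rw [ht]; ring
      rw [this]; nlinarith
  · have h5 : 0 < k ^ 4 + k ^ 3 - 3 * k ^ 2 - 2 * k + 1 := by
      have : (2 * k ^ 2 + k - 4) ^ 2 < 4 * (k ^ 4 + k ^ 3 - 3 * k ^ 2 - 2 * k + 1) := by nlinarith
      nlinarith [sq_nonneg (2 * k ^ 2 + k - 4)]
    nlinarith [sq_nonneg t]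

lemma case_nine (k l : ℤ) (hk : 3 ≤ k) : G 9 k ≠ l ^ 2 - 1 := by
  intro h
  have e : G 9 k = (k ^ 5 + k ^ 4 - 4 * k ^ 3 - 3 * k ^ 2 + 3 * k + 1) *
      (k ^ 4 - k ^ 3 - 3 * k ^ 2 + 2 * k + 1) - 1 := by
    simp only [G]; ring
  have h2 : (k ^ 5 + k ^ 4 - 4 * k ^ 3 - 3 * k ^ 2 + 3 * k + 1) *
      (k ^ 4 - k ^ 3 - 3 * k ^ 2 + 2 * k + 1) = l ^ 2 := by
    linarith
  -- coprimality by three division steps
  have hc : IsCoprime (k ^ 4 - k ^ 3 - 3 * k ^ 2 + 2 * k + 1)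
      (k ^ 5 + k ^ 4 - 4 * k ^ 3 - 3 * k ^ 2 + 3 * k + 1) := by
    have a1 : IsCoprime (k ^ 3 + k ^ 2 - 2 * k - 1) (k ^ 4 - k ^ 3 - 3 * k ^ 2 + 2 * k + 1) := by
      have a2 : IsCoprime (k ^ 3 + k ^ 2 - 2 * k - 1) (k ^ 2 - k - 1) :=
        ⟨-(k - 2), k ^ 2 - 3, by ring⟩
      have e2 : k ^ 4 - k ^ 3 - 3 * k ^ 2 + 2 * k + 1 =
          (k ^ 2 - k - 1) + (k ^ 3 + k ^ 2 - 2 * k - 1) * (k - 2) + k ^ 2 * 0 := by ring
      rw [e2]
      simpa using IsCoprime.add_mul_left_right a2 (k - 2)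
    have e3 : k ^ 5 + k ^ 4 - 4 * k ^ 3 - 3 * k ^ 2 + 3 * k + 1 =
        (k ^ 3 + k ^ 2 - 2 * k - 1) + (k ^ 4 - k ^ 3 - 3 * k ^ 2 + 2 * k + 1) * (k + 2) := by ring
    rw [e3]
    exact IsCoprime.add_mul_left_right a1.symm (k + 2)
  obtain ⟨t, ht | ht⟩ := Int.sq_of_isCoprime hc
    (show (k ^ 4 - k ^ 3 - 3 * k ^ 2 + 2 * k + 1) *
      (k ^ 5 + k ^ 4 - 4 * k ^ 3 - 3 * k ^ 2 + 3 * k + 1) = l ^ 2 by linarith)
  · have : (2 * t) ^ 2 = 4 * (k ^ 4 - k ^ 3 - 3 * k ^ 2 + 2 * k + 1) := by rw [ht]; ring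
    refine no_sq (2 * k ^ 2 - k - 4) (2 * t) (by nlinarith) ?_ ?_
    · rw [this]; nlinarith
    · rw [this]; nlinarith
  · have h5 : 0 < k ^ 4 - k ^ 3 - 3 * k ^ 2 + 2 * k + 1 := by
      have : (2 * k ^ 2 - k - 4) ^ 2 < 4 * (k ^ 4 - k ^ 3 - 3 * k ^ 2 + 2 * k + 1) := by nlinarith
      nlinarith [sq_nonneg (2 * k ^ 2 - k - 4)]
    nlinarith [sq_nonneg t]

lemma case_ten (k l : ℤ) (hk : 3 ≤ k) : G 10 k ≠ l ^ 2 - 1 := by
  intro h
  have e : G 10 k = k ^ 2 * ((k ^ 4 - 5 * k ^ 2 + 5) * (k ^ 4 - 4 * k ^ 2 + 3)) - 1 := by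
    simp only [G]; ring
  have h2 : k ^ 2 * ((k ^ 4 - 5 * k ^ 2 + 5) * (k ^ 4 - 4 * k ^ 2 + 3)) = l ^ 2 := by linarith
  have h3 : k ∣ l := (Int.pow_dvd_pow_iff (two_ne_zero)).1 ⟨_, h2.symm⟩
  obtain ⟨s, rfl⟩ := h3
  have h4 : (k ^ 4 - 5 * k ^ 2 + 5) * (k ^ 4 - 4 * k ^ 2 + 3) = s ^ 2 := by
    have : k ^ 2 * ((k ^ 4 - 5 * k ^ 2 + 5) * (k ^ 4 - 4 * k ^ 2 + 3)) = k ^ 2 * s ^ 2 := by
      rw [h2]; ring
    exact mul_left_cancel₀ (by positivity) this
  have hk2 : 9 ≤ k ^ 2 := by nlinarith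
  have e4 : k ^ 4 - 4 * k ^ 2 + 3 = (k ^ 2 - 2) ^ 2 - 1 := by ring
  exact no_factor _ _ s (k ^ 2 - 3) ⟨-(k ^ 2 - 2), k ^ 2 - 3, by ring⟩ h4
    (by rw [e4]; nlinarith) (by linarith) (by rw [e4]; nlinarith) (by rw [e4]; nlinarith)

/-- For `k ≥ 3`, every integer `l` and every index `i` with `3 ≤ i ≤ 10` or `4 ∣ i`, `0 < i`: the
term `G i k` of the chain of `k` is not the first term `G 2 l = l ^ 2 - 1` of the chain of `l`. -/
theorem result (k l : ℤ) (hk : 3 ≤ k) (i : ℕ) (hi : (3 ≤ i ∧ i ≤ 10) ∨ (4 ∣ i ∧ 0 < i)) :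
    G i k ≠ G 2 l := by
  have e : G 2 l = l ^ 2 - 1 := by simp only [G]; ring
  rw [e]
  rcases hi with ⟨h1, h2⟩ | ⟨⟨r, rfl⟩, h⟩
  · have h4 : i = 3 ∨ i = 4 ∨ i = 5 ∨ i = 6 ∨ i = 7 ∨ i = 8 ∨ i = 9 ∨ i = 10 := by omega
    rcases h4 with rfl | rfl | rfl | rfl | rfl | rfl | rfl | rfl
    · exact case_three k l hk
    · exact case_four 1 one_pos k l hk
    · exact case_five k l hk
    · exact case_six k l hk
    · exact case_seven k l hk
    · exact case_four 2 two_pos k l hk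
    · exact case_nine k l hk
    · exact case_ten k l hk
  · exact case_four r (by omega) k l hk

end Pool.Agent.Results.MP_83ba34_nt.FirstTerms
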