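import Mathlib

/-!
# Terms of chains that are one less than a square
-/

set_option autoImplicit false

namespace Pool.Agent.Results.MP_83ba34_nt.OddSquare

open NumberTheorySymbols ZMod

/-- The polynomials `G_i` of the problem file, evaluated at the integer `x`. -/
def G : ℕ → ℤ → ℤ
  | 0, _ => 1
  | 1, x => x
  | (i + 2), x => x * G (i + 1) x - G i x

/-- Companion sequence. -/
def V : ℕ → ℤ → ℤ
  | 0, _ => 2
  | 1, x => x
  | (i + 2), x => x * V (i + 1) x - V i x

/-- Difference sequence. -/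
def N : ℕ → ℤ → ℤ
  | 0, _ => 1
  | 1, _ => 1
  | (i + 2), x => x * N (i + 1) x - N i x

theorem shift (x : ℤ) (w : ℕ → ℤ) (hw : ∀ n, w (n + 2) = x * w (n + 1) - w n) (e : ℕ) :
    (∀ n, w (n + 2 * e) + w n = V e x * w (n + e)) ∧
    (∀ n, w (n + 2 * (e + 1)) + w n = V (e + 1) x * w (n + (e + 1))) := by
  induction e with
  | zero =>
    refine ⟨fun n => ?_, fun n => ?_⟩
    · simp [V]; ring
    · have h := hw n
      have e1 : n + 2 * (0 + 1) = n + 2 := by ring
      have e2 : n + (0 + 1) = n + 1 := by ring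
      rw [e1, e2]
      simp only [V]
      linarith
  | succ e ih =>
    refine ⟨ih.2, fun n => ?_⟩
    have h1 := ih.2 (n + 1)
    have h2 := ih.1 (n + 2)
    have h3 := hw n
    have h4 := hw (n + 2 * e + 2)
    have e1 : n + 1 + 2 * (e + 1) = n + 2 * e + 2 + 1 := by ring
    have e2 : n + 1 + (e + 1) = n + 2 + e := by ring
    have e3 : n + 2 + 2 * e = n + 2 * e + 2 := by ring
    have e4 : n + 2 * (e + 1 + 1) = n + 2 * e + 2 + 2 := by ring
    have e5 : n + (e + 1 + 1) = n + 2 + e := by ring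
    rw [e1, e2] at h1
    rw [e3] at h2
    rw [e4, e5]
    have hV : V (e + 1 + 1) x = x * V (e + 1) x - V e x := rfl
    rw [hV]
    linear_combination h4 + x * h1 - h2 + h3

theorem iter (x : ℤ) (w : ℕ → ℤ) (hw : ∀ n, w (n + 2) = x * w (n + 1) - w n) (e n : ℕ) :
    ∀ c, V e x ∣ w (n + 2 * e * c) - (-1) ^ c * w n := by
  intro c
  induction c with
  | zero => simp
  | succ c ih =>
    have h := (shift x w hw e).1 (n + 2 * e * c)
    have e1 : n + 2 * e * c + 2 * e = n + 2 * e * (c + 1) := by ring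
    rw [e1] at h
    have h2 : w (n + 2 * e * (c + 1)) - (-1) ^ (c + 1) * w n =
        V e x * w (n + 2 * e * c + e) - (w (n + 2 * e * c) - (-1) ^ c * w n) := by
      rw [pow_succ]; linear_combination h
    rw [h2]
    exact dvd_sub (dvd_mul_right _ _) ih

theorem iter_odd (x : ℤ) (w : ℕ → ℤ) (hw : ∀ n, w (n + 2) = x * w (n + 1) - w n) (e n c : ℕ)
    (hc : Odd c) : V e x ∣ w (n + 2 * e * c) + w n := by
  have h := iter x w hw e n c
  rw [hc.neg_one_pow] at h
  have : w (n + 2 * e * c) - -1 * w n = w (n + 2 * e * c) + w n := by ring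
  rwa [this] at h

theorem V_double (x : ℤ) (e : ℕ) : V (2 * e) x = V e x ^ 2 - 2 := by
  have h := (shift x (fun n => V n x) (fun n => rfl) e).1 0
  simp only [Nat.zero_add] at h
  have h0 : V 0 x = 2 := rfl
  rw [h0] at h
  linarith [sq (V e x)]

theorem V_two_pow (x : ℤ) (hx : Odd x) (h3 : 3 ≤ x) (r : ℕ) :
    V (2 ^ (r + 1)) x % 8 = 7 ∧ 0 < V (2 ^ (r + 1)) x ∧ (x - 1) ∣ V (2 ^ (r + 1)) x + 1 := by
  have sq8 : ∀ z : ℤ, z % 2 = 1 → (z ^ 2 - 2) % 8 = 7 := by
    intro z hz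
    have h : z % 8 = 1 ∨ z % 8 = 3 ∨ z % 8 = 5 ∨ z % 8 = 7 := by omega
    rcases h with h | h | h | h <;>
      (rw [sq, Int.sub_emod, Int.mul_emod, h]; norm_num)
  induction r with
  | zero =>
    have h2 : V (2 ^ (0 + 1)) x = x ^ 2 - 2 := by
      have := V_double x 1
      simpa [V] using this
    rw [h2]
    refine ⟨sq8 x (Int.odd_iff.mp hx), by nlinarith, ⟨x + 1, by ring⟩⟩
  | succ r ih =>
    have h2 : V (2 ^ (r + 1 + 1)) x = V (2 ^ (r + 1)) x ^ 2 - 2 := by
      rw [pow_succ 2 (r + 1), mul_comm]; exact V_double x _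
    rw [h2]
    obtain ⟨h8, hp, c, hc⟩ := ih
    set v := V (2 ^ (r + 1)) x
    refine ⟨sq8 v (by omega), ?_, ⟨c * (v - 1), ?_⟩⟩
    · have : 7 ≤ v := by omega
      nlinarith
    · rw [← mul_assoc, ← hc]; ring

theorem jac_neg_one (b : ℕ) (hb : b % 8 = 7) : J(-1 | b) = -1 := by
  rw [jacobiSym.at_neg_one (Nat.odd_iff.mpr (by omega))]
  exact χ₄_nat_three_mod_four (by omega)

theorem jac_two (b : ℕ) (hb : b % 8 = 7) : J(2 | b) = 1 := by
  rw [jacobiSym.at_two (Nat.odd_iff.mpr (by omega)), χ₈_nat_eq_if_mod_eight]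
  have h1 : ¬ (b % 2 = 0) := by omega
  simp [h1, hb]

theorem jac_odd (b m : ℕ) (hb : b % 8 = 7) (hm : Odd m) (hd : (m : ℤ) ∣ (b : ℤ) + 1) :
    J((m : ℤ) | b) = 1 := by
  have hbm : J((b : ℤ) | m) = J(-1 | m) := by
    apply jacobiSym.mod_left'
    apply Int.ModEq.symm
    rw [Int.modEq_iff_dvd]
    simpa using hd
  have hbo : Odd b := Nat.odd_iff.mpr (by omega)
  have h4 : m % 4 = 1 ∨ m % 4 = 3 := by
    have := Nat.odd_iff.mp hm; omega
  rcases h4 with h4 | h4
  · rw [jacobiSym.quadratic_reciprocity_one_mod_four h4 hbo, hbm, jacobiSym.at_neg_one hm,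
      χ₄_nat_one_mod_four h4]
  · rw [jacobiSym.quadratic_reciprocity_three_mod_four h4 (by omega), hbm,
      jacobiSym.at_neg_one hm, χ₄_nat_three_mod_four h4]
    norm_num

theorem jac_pred (b t : ℕ) (hb : b % 8 = 7) (ht : t ≠ 0) (hd : (t : ℤ) ∣ (b : ℤ) + 1) :
    J((t : ℤ) | b) = 1 := by
  obtain ⟨k, m, hm, rfl⟩ := Nat.exists_eq_two_pow_mul_odd ht
  have hdm : (m : ℤ) ∣ (b : ℤ) + 1 := by
    refine dvd_trans ?_ hd
    push_cast
    exact dvd_mul_left _ _
  push_cast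
  rw [jacobiSym.mul_left, jacobiSym.pow_left, jac_two b hb, jac_odd b m hb hm hdm]
  norm_num

theorem not_sq_of_dvd (v a z : ℤ) (h8 : v % 8 = 7) (hp : 0 < v)
    (ha : a = 1 ∨ (0 < a ∧ a ∣ v + 1)) (h : v ∣ z ^ 2 + a) : False := by
  obtain ⟨b, rfl⟩ := Int.eq_ofNat_of_zero_le hp.le
  have hb : b % 8 = 7 := by omega
  have hj : J(-a | b) = -1 := by
    have e : -a = -1 * a := by ring
    rw [e, jacobiSym.mul_left, jac_neg_one b hb]
    rcases ha with rfl | ⟨ha, hd⟩
    · rw [jacobiSym.one_left]; norm_num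
    · obtain ⟨t, rfl⟩ := Int.eq_ofNat_of_zero_le ha.le
      rw [jac_pred b t hb (by omega) hd]; norm_num
  apply nonsquare_of_jacobiSym_eq_neg_one hj
  refine ⟨(z : ZMod b), ?_⟩
  have h0 : ((z ^ 2 + a : ℤ) : ZMod b) = 0 := (ZMod.intCast_zmod_eq_zero_iff_dvd _ _).mpr h
  push_cast at h0 ⊢
  linear_combination -h0

/-- Shifted copy of `N`, starting one step earlier. -/
def N' (y : ℤ) : ℕ → ℤ
  | 0 => y - 1
  | (i + 1) => N i y

theorem N'_rec (y : ℤ) (n : ℕ) : N' y (n + 2) = y * N' y (n + 1) - N' y n := by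
  cases n with
  | zero => simp [N', N]
  | succ n => rfl

theorem N_not_sq (y : ℤ) (hy : Odd y) (h3 : 3 ≤ y) (h : ℕ) (hh : 3 ≤ h) (z : ℤ)
    (hz : N h y = z ^ 2) : False := by
  have key : ∀ (w : ℕ → ℤ) (_ : ∀ n, w (n + 2) = y * w (n + 1) - w n) (n q : ℕ) (_ : q ≠ 0)
      (_ : w n = 1 ∨ w n = y - 1), w (n + 4 * q) = z ^ 2 → False := by
    intro w hw n q hq ha he
    obtain ⟨s, c, hc, rfl⟩ := Nat.exists_eq_two_pow_mul_odd hq
    have hd := iter_odd y w hw (2 ^ (s + 1)) n c hc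
    have e1 : n + 2 * 2 ^ (s + 1) * c = n + 4 * (2 ^ s * c) := by ring
    rw [e1, he] at hd
    obtain ⟨h8, hp, hdv⟩ := V_two_pow y hy h3 s
    refine not_sq_of_dvd _ (w n) z h8 hp ?_ hd
    rcases ha with ha | ha
    · exact Or.inl ha
    · right; rw [ha]; exact ⟨by omega, hdv⟩
  have hN : ∀ n, (fun k => N k y) (n + 2) = y * (fun k => N k y) (n + 1) - (fun k => N k y) n :=
    fun n => rfl
  have h4 : h % 4 = 0 ∨ h % 4 = 1 ∨ h % 4 = 2 ∨ h % 4 = 3 := by omega
  rcases h4 with h4 | h4 | h4 | h4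
  · refine key (fun k => N k y) hN 0 (h / 4) (by omega) (Or.inl rfl) ?_
    have e : 0 + 4 * (h / 4) = h := by omega
    simp only [e]; exact hz
  · refine key (fun k => N k y) hN 1 (h / 4) (by omega) (Or.inl rfl) ?_
    have e : 1 + 4 * (h / 4) = h := by omega
    simp only [e]; exact hz
  · refine key (fun k => N k y) hN 2 (h / 4) (by omega) (Or.inr ?_) ?_
    · simp [N]
    · have e : 2 + 4 * (h / 4) = h := by omega
      simp only [e]; exact hz
  · refine key (N' y) (N'_rec y) 0 (h / 4 + 1) (by omega) (Or.inr rfl) ?_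
    have e : 0 + 4 * (h / 4 + 1) = h + 1 := by omega
    rw [e]; exact hz

theorem G_add (x : ℤ) (n : ℕ) : (∀ m, G (m + n + 2) x = G (m + 1) x * G (n + 1) x - G m x * G n x) ∧
    (∀ m, G (m + (n + 1) + 2) x = G (m + 1) x * G (n + 1 + 1) x - G m x * G (n + 1) x) := by
  induction n with
  | zero =>
    refine ⟨fun m => ?_, fun m => ?_⟩
    · have h : G (m + 0 + 2) x = x * G (m + 1) x - G m x := rfl
      rw [h]; simp [G]; ring
    · have h : G (m + (0 + 1) + 2) x = x * G (m + 2) x - G (m + 1) x := rfl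
      have h2 : G (m + 2) x = x * G (m + 1) x - G m x := rfl
      rw [h, h2]; simp [G]; ring
  | succ n ih =>
    refine ⟨ih.2, fun m => ?_⟩
    have h1 := ih.2 (m)
    have h2 := ih.1 (m)
    have h : G (m + (n + 1 + 1) + 2) x = x * G (m + (n + 1) + 2) x - G (m + n + 2) x := rfl
    have h4 : G (n + 1 + 1 + 1) x = x * G (n + 1 + 1) x - G (n + 1) x := rfl
    have h5 : G (n + 1 + 1) x = x * G (n + 1) x - G n x := rfl
    rw [h, h1, h2, h4]
    rw [h5]; ring

theorem G_quad (x : ℤ) (n : ℕ) :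
    G (n + 1) x ^ 2 - x * G (n + 1) x * G n x + G n x ^ 2 = 1 := by
  induction n with
  | zero => simp [G]; ring
  | succ n ih =>
    have h : G (n + 1 + 1) x = x * G (n + 1) x - G n x := rfl
    rw [h]; linear_combination ih

theorem V_eq (x : ℤ) (n : ℕ) : V (n + 1) x = 2 * G (n + 1) x - x * G n x ∧
    V (n + 2) x = 2 * G (n + 2) x - x * G (n + 1) x := by
  induction n with
  | zero => constructor <;> simp [G, V] <;> ring
  | succ n ih =>
    refine ⟨ih.2, ?_⟩
    have h : G (n + 1 + 2) x = x * G (n + 2) x - G (n + 1) x := rfl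
    have h2 : V (n + 1 + 2) x = x * V (n + 2) x - V (n + 1) x := rfl
    have h3 : G (n + 1 + 1) x = x * G (n + 1) x - G n x := rfl
    have h4 : G (n + 2) x = G (n + 1 + 1) x := rfl
    rw [h2, ih.1, ih.2, h, h4, h3]; ring

theorem N_eq (x : ℤ) (n : ℕ) : N (n + 2) x = G (n + 1) x - G n x ∧
    N (n + 3) x = G (n + 2) x - G (n + 1) x := by
  induction n with
  | zero => constructor <;> simp [G, N]; ring
  | succ n ih =>
    refine ⟨ih.2, ?_⟩
    have h : N (n + 1 + 3) x = x * N (n + 3) x - N (n + 2) x := rfl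
    have h2 : G (n + 1 + 2) x = x * G (n + 2) x - G (n + 1) x := rfl
    have h3 : G (n + 1 + 1) x = x * G (n + 1) x - G n x := rfl
    have h4 : G (n + 2) x = G (n + 1 + 1) x := rfl
    rw [h, ih.1, ih.2, h2, h4, h3]; ring

theorem dvd_G_odd (x : ℤ) (j : ℕ) : x ∣ G (2 * j + 1) x := by
  induction j with
  | zero => simp [G]
  | succ j ih =>
    have h : G (2 * (j + 1) + 1) x = x * G (2 * j + 2) x - G (2 * j + 1) x := rfl
    rw [h]; exact dvd_sub (dvd_mul_right _ _) ih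

theorem V_odd (x : ℤ) (j : ℕ) : V (2 * j + 1) x = x * N (j + 1) (x ^ 2 - 2) ∧
    V (2 * j + 3) x = x * N (j + 2) (x ^ 2 - 2) := by
  induction j with
  | zero => constructor <;> simp [V, N]; ring
  | succ j ih =>
    refine ⟨ih.2, ?_⟩
    have h1 : V (2 * (j + 1) + 3) x = x * V (2 * j + 4) x - V (2 * j + 3) x := rfl
    have h2 : V (2 * j + 4) x = x * V (2 * j + 3) x - V (2 * j + 2) x := rfl
    have h3 : V (2 * j + 3) x = x * V (2 * j + 2) x - V (2 * j + 1) x := rfl
    have h4 : N (j + 1 + 2) (x ^ 2 - 2) = (x ^ 2 - 2) * N (j + 2) (x ^ 2 - 2)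
      - N (j + 1) (x ^ 2 - 2) := rfl
    rw [h1, h2, h4]
    linear_combination (x ^ 2 - 2) * ih.2 - ih.1 + h3

theorem V_ge (x : ℤ) (h3 : 3 ≤ x) (j : ℕ) : 2 ≤ V j x ∧ V j x + 1 ≤ V (j + 1) x := by
  induction j with
  | zero => simp [V]; omega
  | succ j ih =>
    have h : V (j + 1 + 1) x = x * V (j + 1) x - V j x := rfl
    refine ⟨by omega, ?_⟩
    rw [h]
    nlinarith [ih.1, ih.2]

theorem G_ge (x : ℤ) (h3 : 3 ≤ x) (j : ℕ) : 1 ≤ G j x ∧ G j x + 1 ≤ G (j + 1) x := by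
  induction j with
  | zero => simp [G]; omega
  | succ j ih =>
    have h : G (j + 1 + 1) x = x * G (j + 1) x - G j x := rfl
    refine ⟨by omega, ?_⟩
    rw [h]
    nlinarith [ih.1, ih.2]

theorem pos_of_mul_sq {a c : ℤ} (hc : c = a ^ 2 ∨ c = -a ^ 2) (h : 0 < c) : c = a ^ 2 := by
  rcases hc with hc | hc
  · exact hc
  · nlinarith [sq_nonneg a]

/-- The sequence with initial values `0, 1`. -/
def U : ℕ → ℤ → ℤ
  | 0, _ => 0
  | 1, _ => 1
  | (i + 2), x => x * U (i + 1) x - U i x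

theorem U_double (x : ℤ) (e : ℕ) : U (2 * e) x = V e x * U e x := by
  have h := (shift x (fun n => U n x) (fun n => rfl) e).1 0
  simp only [Nat.zero_add] at h
  have h0 : U 0 x = 0 := rfl
  rw [h0] at h
  linarith

theorem G_odd_U (x : ℤ) (j : ℕ) : G (2 * j + 1) x = x * U (j + 1) (x ^ 2 - 2) ∧
    G (2 * j + 3) x = x * U (j + 2) (x ^ 2 - 2) := by
  induction j with
  | zero => constructor <;> simp [G, U]; ring
  | succ j ih =>
    refine ⟨ih.2, ?_⟩
    have h1 : G (2 * (j + 1) + 3) x = x * G (2 * j + 4) x - G (2 * j + 3) x := rfl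
    have h2 : G (2 * j + 4) x = x * G (2 * j + 3) x - G (2 * j + 2) x := rfl
    have h3 : G (2 * j + 3) x = x * G (2 * j + 2) x - G (2 * j + 1) x := rfl
    have h4 : U (j + 1 + 2) (x ^ 2 - 2) = (x ^ 2 - 2) * U (j + 2) (x ^ 2 - 2)
      - U (j + 1) (x ^ 2 - 2) := rfl
    rw [h1, h2, h4]
    linear_combination (x ^ 2 - 2) * ih.2 - ih.1 + h3

theorem V_mod_four (y : ℤ) (hy : y % 4 = 2) (n : ℕ) : V n y % 4 = 2 ∧ V (n + 1) y % 4 = 2 := by
  induction n with
  | zero => exact ⟨rfl, hy⟩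
  | succ n ih =>
    refine ⟨ih.2, ?_⟩
    have h : V (n + 1 + 1) y = y * V (n + 1) y - V n y := rfl
    rw [h, Int.sub_emod, Int.mul_emod, hy, ih.1, ih.2]; norm_num

theorem U_odd (y : ℤ) (hy : y % 4 = 2) (n : ℕ) : U (2 * n) y % 2 = 0 ∧ U (2 * n + 1) y % 2 = 1 := by
  induction n with
  | zero => exact ⟨rfl, rfl⟩
  | succ n ih =>
    have h : U (2 * (n + 1)) y = y * U (2 * n + 1) y - U (2 * n) y := rfl
    have h2 : U (2 * (n + 1) + 1) y = y * U (2 * (n + 1)) y - U (2 * n + 1) y := rfl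
    have hy2 : y % 2 = 0 := by omega
    have e1 : U (2 * (n + 1)) y % 2 = 0 := by
      rw [h, Int.sub_emod, Int.mul_emod, hy2, ih.1]; norm_num
    refine ⟨e1, ?_⟩
    rw [h2, Int.sub_emod, Int.mul_emod, hy2, ih.2]; norm_num

theorem U_val (y : ℤ) (hy : y % 4 = 2) (q : ℕ) (hq : Odd q) (s : ℕ) :
    ∃ o : ℤ, Odd o ∧ U (2 ^ s * q) y = 2 ^ s * o := by
  induction s with
  | zero =>
    obtain ⟨n, rfl⟩ := hq
    refine ⟨U (2 * n + 1) y, Int.odd_iff.mpr (U_odd y hy n).2, by simp⟩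
  | succ s ih =>
    obtain ⟨o, ho, hU⟩ := ih
    have e : 2 ^ (s + 1) * q = 2 * (2 ^ s * q) := by ring
    have hv := (V_mod_four y hy (2 ^ s * q)).1
    rw [e, U_double, hU]
    refine ⟨(V (2 ^ s * q) y / 2) * o, ?_, ?_⟩
    · exact Odd.mul (Int.odd_iff.mpr (by omega)) ho
    · have : V (2 ^ s * q) y = 2 * (V (2 ^ s * q) y / 2) := by omega
      rw [pow_succ]
      linear_combination (2 ^ s * o) * this

theorem U_not_sq (y : ℤ) (hy : y % 4 = 2) (n : ℕ) (hn : Odd (padicValNat 2 n)) (b : ℤ)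
    (h : U n y = b ^ 2) : False := by
  have hn0 : n ≠ 0 := by
    rintro rfl
    simp at hn
  obtain ⟨s, q, hq, rfl⟩ := Nat.exists_eq_two_pow_mul_odd hn0
  have hq0 : q ≠ 0 := by rintro rfl; simp at hq
  have hq2 : ¬ 2 ∣ q := by
    intro hd; have := Nat.odd_iff.mp hq; omega
  have hs : padicValNat 2 (2 ^ s * q) = s := by
    rw [padicValNat.mul (by positivity) hq0, padicValNat.prime_pow,
      padicValNat.eq_zero_of_not_dvd hq2]; rfl
  rw [hs] at hn
  obtain ⟨o, ho, hU⟩ := U_val y hy q hq s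
  rw [h] at hU
  have hN : b.natAbs ^ 2 = 2 ^ s * o.natAbs := by
    have := congrArg Int.natAbs hU
    rwa [Int.natAbs_pow, Int.natAbs_mul, Int.natAbs_pow] at this
  have ho2 : ¬ 2 ∣ o.natAbs := by
    intro hd
    have := Nat.odd_iff.mp (Int.natAbs_odd.mpr ho); omega
  have ho0 : o.natAbs ≠ 0 := by intro h0; rw [h0] at ho2; simp at ho2
  have hb0 : b.natAbs ≠ 0 := by
    intro h0
    rw [h0] at hN
    have : 0 < 2 ^ s * o.natAbs := by positivity
    rw [← hN] at this; simp at this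
  have hv := congrArg (padicValNat 2) hN
  rw [padicValNat.pow, padicValNat.mul (by positivity) ho0, padicValNat.prime_pow,
    padicValNat.eq_zero_of_not_dvd ho2] at hv
  obtain ⟨t, ht⟩ := hn
  omega

/-- The recurrence of `G` over `ZMod 8`. -/
def Gz : ℕ → ZMod 8 → ZMod 8
  | 0, _ => 1
  | 1, x => x
  | (i + 2), x => x * Gz (i + 1) x - Gz i x

theorem G_cast (x : ℤ) (n : ℕ) : ((G n x : ℤ) : ZMod 8) = Gz n (x : ZMod 8) ∧
    ((G (n + 1) x : ℤ) : ZMod 8) = Gz (n + 1) (x : ZMod 8) := by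
  induction n with
  | zero => constructor <;> simp [G, Gz]
  | succ n ih =>
    refine ⟨ih.2, ?_⟩
    have h : G (n + 1 + 1) x = x * G (n + 1) x - G n x := rfl
    have h2 : Gz (n + 1 + 1) (x : ZMod 8) = x * Gz (n + 1) (x : ZMod 8) - Gz n (x : ZMod 8) := rfl
    rw [h, h2, ← ih.1, ← ih.2]; push_cast; ring

theorem Gz_period (y : ZMod 8) (hy : y = 0 ∨ y = 2 ∨ y = 4 ∨ y = 6) (n : ℕ) :
    Gz (n + 8) y = Gz n y ∧ Gz (n + 1 + 8) y = Gz (n + 1) y := by
  induction n with
  | zero => rcases hy with rfl | rfl | rfl | rfl <;> decide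
  | succ n ih =>
    refine ⟨ih.2, ?_⟩
    have h : Gz (n + 1 + 1 + 8) y = y * Gz (n + 1 + 8) y - Gz (n + 8) y := rfl
    have h2 : Gz (n + 1 + 1) y = y * Gz (n + 1) y - Gz n y := rfl
    rw [h, h2, ih.1, ih.2]

theorem Gz_mod (y : ZMod 8) (hy : y = 0 ∨ y = 2 ∨ y = 4 ∨ y = 6) (c q : ℕ) :
    Gz (c + 8 * q) y = Gz c y := by
  induction q with
  | zero => rfl
  | succ q ih =>
    have e : c + 8 * (q + 1) = (c + 8 * q) + 8 := by ring
    rw [e, (Gz_period y hy _).1, ih]

theorem dec1 : ∀ a b : ZMod 8, ∀ y ∈ ([0, 2, 4, 6] : List (ZMod 8)), ∀ c ∈ ([0, 1, 4, 5] : List ℕ),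
    Gz (c + 1) y - Gz c y = a ^ 2 → Gz (c + 2) y + Gz (c + 1) y = b ^ 2 → False := by
  decide +kernel

theorem dec2 : ∀ a b : ZMod 8, ∀ y ∈ ([2, 4, 6] : List (ZMod 8)), ∀ c ∈ ([3, 7] : List ℕ),
    Gz (c + 1) y - Gz c y = a ^ 2 → Gz (c + 2) y + Gz (c + 1) y = b ^ 2 → False := by
  decide +kernel

theorem even_case (x a b : ℤ) (hx : Even x) (p : ℕ)
    (hp : p % 4 = 0 ∨ p % 4 = 1 ∨ (p % 4 = 3 ∧ ¬ (8 : ℤ) ∣ x))
    (ha : G (p + 1) x - G p x = a ^ 2) (hb : G (p + 2) x + G (p + 1) x = b ^ 2) : False := by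
  have hx8 : (x : ZMod 8) = ((x % 8 : ℤ) : ZMod 8) := by
    rw [ZMod.intCast_eq_intCast_iff']
    omega
  have hx4 : x % 8 = 0 ∨ x % 8 = 2 ∨ x % 8 = 4 ∨ x % 8 = 6 := by
    obtain ⟨c, hc⟩ := hx
    omega
  have hy : (x : ZMod 8) = 0 ∨ (x : ZMod 8) = 2 ∨ (x : ZMod 8) = 4 ∨ (x : ZMod 8) = 6 := by
    rw [hx8]
    rcases hx4 with h | h | h | h <;> rw [h] <;> simp
  have e : p = p % 8 + 8 * (p / 8) := by omega
  have h0 : ((G p x : ℤ) : ZMod 8) = Gz (p % 8) (x : ZMod 8) := by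
    rw [(G_cast x p).1]
    conv_lhs => rw [e]
    exact Gz_mod _ hy _ _
  have h1 : ((G (p + 1) x : ℤ) : ZMod 8) = Gz (p % 8 + 1) (x : ZMod 8) := by
    rw [(G_cast x (p + 1)).1]
    have e1 : p + 1 = (p % 8 + 1) + 8 * (p / 8) := by omega
    conv_lhs => rw [e1]
    exact Gz_mod _ hy _ _
  have h2 : ((G (p + 2) x : ℤ) : ZMod 8) = Gz (p % 8 + 2) (x : ZMod 8) := by
    rw [(G_cast x (p + 2)).1]
    have e1 : p + 2 = (p % 8 + 2) + 8 * (p / 8) := by omega
    conv_lhs => rw [e1]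
    exact Gz_mod _ hy _ _
  have ha' : Gz (p % 8 + 1) (x : ZMod 8) - Gz (p % 8) (x : ZMod 8) = (a : ZMod 8) ^ 2 := by
    rw [← h0, ← h1, ← Int.cast_sub, ha]; push_cast; rfl
  have hb' : Gz (p % 8 + 2) (x : ZMod 8) + Gz (p % 8 + 1) (x : ZMod 8) = (b : ZMod 8) ^ 2 := by
    rw [← h2, ← h1, ← Int.cast_add, hb]; push_cast; rfl
  have hc : (p % 8 = 0 ∨ p % 8 = 1 ∨ p % 8 = 4 ∨ p % 8 = 5) ∨
      ((p % 8 = 3 ∨ p % 8 = 7) ∧ ¬ (8 : ℤ) ∣ x) := by omega
  rcases hc with hc | ⟨hc, hx0⟩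
  · exact dec1 a b x (by simpa using hy) (p % 8) (by simpa using hc) ha' hb'
  · refine dec2 a b x ?_ (p % 8) (by simpa using hc) ha' hb'
    have hx5 : x % 8 = 2 ∨ x % 8 = 4 ∨ x % 8 = 6 := by omega
    rw [hx8]
    rcases hx5 with h | h | h <;> rw [h] <;> simp

/-- `G_i(x) + 1` is not a square if `i ≥ 3`, `x ≥ 3` and one of the following holds: `x` is odd;
the exponent of `2` in `i + 2` is odd; `i` is odd and `i` is not `1` or `7` modulo `8`;
`i` is `1` modulo `8` and `x` is not divisible by `8`. -/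
theorem main (x l : ℤ) (h3 : 3 ≤ x) (i : ℕ) (hi : 3 ≤ i)
    (hx : Odd x ∨ Odd (padicValNat 2 (i + 2)) ∨ i % 8 = 3 ∨ i % 8 = 5 ∨
      (i % 8 = 1 ∧ ¬ (8 : ℤ) ∣ x)) (h : G i x + 1 = l ^ 2) : False := by
  rcases Nat.even_or_odd' i with ⟨m, rfl | rfl⟩
  · -- i = 2 m
    obtain ⟨p, rfl⟩ : ∃ p, m = p + 1 := ⟨m - 1, by omega⟩
    have hG : G (2 * (p + 1)) x = G (p + 1) x * G (p + 1) x - G p x * G p x := by
      have := (G_add x p).1 p
      have e : 2 * (p + 1) = p + p + 2 := by ring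
      rw [e]; exact this
    have hq := G_quad x p
    have hV := (V_eq x p).1
    have hprod : G (p + 1) x * V (p + 1) x = l ^ 2 := by
      rw [hV]; linear_combination h - hG + hq
    have hVpos : 0 < V (p + 1) x := by have := (V_ge x h3 (p + 1)).1; omega
    rcases Nat.even_or_odd' p with ⟨j, rfl | rfl⟩
    · -- p + 1 = 2 j + 1
      obtain ⟨g, hg⟩ := dvd_G_odd x j
      obtain ⟨hR, -⟩ := V_odd x j
      set R := N (j + 1) (x ^ 2 - 2) with hRdef
      have hxl : x ∣ l := by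
        rw [← Int.pow_dvd_pow_iff (two_ne_zero)]
        refine ⟨g * R, ?_⟩
        rw [← hprod, hg, hR]; ring
      obtain ⟨l', rfl⟩ := hxl
      have hx0 : x ≠ 0 := by omega
      have hgR : g * R = l' ^ 2 := by
        have h1 : x ^ 2 * (g * R) = x ^ 2 * l' ^ 2 := by
          rw [hg, hR] at hprod; linear_combination hprod
        exact mul_left_cancel₀ (pow_ne_zero 2 hx0) h1
      have hRu : R = 2 * g - G (2 * j) x := by
        have h1 : x * R = x * (2 * g - G (2 * j) x) := by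
          rw [← hR, hV, hg]; ring
        exact mul_left_cancel₀ hx0 h1
      rw [hg] at hq
      have hcop : IsCoprime g R := by
        refine ⟨x ^ 2 * g - x ^ 2 * G (2 * j) x + 4 * g - 4 * R, R, ?_⟩
        have hu : G (2 * j) x = 2 * g - R := by linarith
        rw [hu] at hq ⊢
        linear_combination hq
      obtain ⟨a, ha⟩ := Int.sq_of_isCoprime hcop.symm (by rw [mul_comm]; exact hgR)
      rcases Int.even_or_odd x with hxe | hxo
      · -- `x` even
        have hx' : Odd (padicValNat 2 (j + 1)) := by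
          rcases hx with hx | hx | hx
          · exact absurd hxe (Int.not_even_iff_odd.mpr hx)
          · have e : 2 * (2 * j + 1) + 2 = 2 ^ 2 * (j + 1) := by ring
            rw [e, padicValNat.mul (by norm_num) (by omega), padicValNat.prime_pow] at hx
            have := Nat.odd_iff.mp hx
            exact Nat.odd_iff.mpr (by omega)
          · omega
        obtain ⟨b, hb⟩ := Int.sq_of_isCoprime hcop hgR
        have hgU : g = U (j + 1) (x ^ 2 - 2) := by
          have h1 : x * g = x * U (j + 1) (x ^ 2 - 2) := by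
            rw [← hg]; exact (G_odd_U x j).1
          exact mul_left_cancel₀ hx0 h1
        have hgpos : 0 < g := by
          have h1 := (G_ge x h3 (2 * j + 1)).1
          rw [hg] at h1
          by_contra hneg
          push Not at hneg
          nlinarith
        have hb' := pos_of_mul_sq hb hgpos
        refine U_not_sq (x ^ 2 - 2) ?_ (j + 1) hx' b (by rw [← hgU]; exact hb')
        obtain ⟨c, hc⟩ := hxe
        have : x ^ 2 = 4 * c ^ 2 := by rw [hc]; ring
        omega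
      have hRpos : 0 < R := by
        rw [hR] at hVpos
        by_contra hneg
        push Not at hneg
        nlinarith
      have ha' := pos_of_mul_sq ha hRpos
      by_cases hj : j + 1 < 3
      · have hj1 : j = 1 := by omega
        subst hj1
        have hN : R = x ^ 2 - 3 := by rw [hRdef]; simp [N]; ring
        rw [hN] at ha'
        have h1 : |x - 1| < |a| := by
          rw [← sq_lt_sq]; nlinarith
        have h2 : |a| < |x| := by
          rw [← sq_lt_sq]; nlinarith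
        rw [abs_of_pos (by omega : (0:ℤ) < x - 1)] at h1
        rw [abs_of_pos (by omega : (0:ℤ) < x)] at h2
        omega
      · refine N_not_sq (x ^ 2 - 2) ?_ (by nlinarith) (j + 1) (by omega) a ha'
        have : Odd (x ^ 2) := hxo.pow
        exact this.sub_even even_two
    · -- p + 1 = 2 j + 2
      obtain ⟨c, hc⟩ := dvd_G_odd x j
      have hV2 : V (2 * j + 1 + 1) x = V (j + 1) x ^ 2 - 2 := by
        have := V_double x (j + 1)
        have e : 2 * (j + 1) = 2 * j + 1 + 1 := by ring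
        rwa [e] at this
      set s := G (2 * j + 1 + 1) x
      set W := V (2 * j + 1 + 1) x
      rw [hc] at hq hV
      have hcop : IsCoprime s W := by
        refine ⟨s - x ^ 2 * c + 2 * c, -c, ?_⟩
        rw [hV]; linear_combination hq
      obtain ⟨a, ha⟩ := Int.sq_of_isCoprime hcop.symm (by rw [mul_comm]; exact hprod)
      have ha' := pos_of_mul_sq ha hVpos
      rw [hV2] at ha'
      have h4 : ∀ z : ℤ, z ^ 2 % 4 = 0 ∨ z ^ 2 % 4 = 1 := by
        intro z
        have : z % 4 = 0 ∨ z % 4 = 1 ∨ z % 4 = 2 ∨ z % 4 = 3 := by omega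
        rcases this with h | h | h | h <;> simp [sq, Int.mul_emod, h]
      have := h4 a
      have := h4 (V (j + 1) x)
      omega
  · -- i = 2 m + 1
    obtain ⟨p, rfl⟩ : ∃ p, m = p + 1 := ⟨m - 1, by omega⟩
    have hx : Odd x ∨ (p % 4 = 0 ∨ p % 4 = 1 ∨ (p % 4 = 3 ∧ ¬ (8 : ℤ) ∣ x)) := by
      rcases hx with hx | hx | hx
      · exact Or.inl hx
      · rw [padicValNat.eq_zero_of_not_dvd (by omega)] at hx
        simp at hx
      · right; omega
    have hG : G (2 * (p + 1) + 1) x = G (p + 2) x * G (p + 1) x - G (p + 1) x * G p x := by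
      have := (G_add x p).1 (p + 1)
      have e : 2 * (p + 1) + 1 = p + 1 + p + 2 := by ring
      rw [e]; exact this
    have hq := G_quad x p
    have hr : G (p + 2) x = x * G (p + 1) x - G p x := rfl
    obtain ⟨c, hc⟩ : x ∣ G (p + 1) x * G p x := by
      rcases Nat.even_or_odd' p with ⟨j, rfl | rfl⟩
      · exact dvd_mul_of_dvd_left (dvd_G_odd x j) _
      · exact dvd_mul_of_dvd_right (dvd_G_odd x j) _
    have hprod : (G (p + 1) x - G p x) * (G (p + 2) x + G (p + 1) x) = l ^ 2 := by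
      rw [hr] at hG ⊢; linear_combination h - hG + hq
    set s := G (p + 1) x
    set r := G p x
    have hcop : IsCoprime (s - r) (G (p + 2) x + s) := by
      refine ⟨(s - r) + (2 - x) * c * x * (s - r) - (2 - x) ^ 2 * c * r, (2 - x) ^ 2 * c * r, ?_⟩
      rw [hr]
      linear_combination (1 + (2 - x) * c * x) * hq - (2 - x) * hc
    obtain ⟨a, ha⟩ := Int.sq_of_isCoprime hcop hprod
    obtain ⟨b, hb⟩ := Int.sq_of_isCoprime hcop.symm (by rw [mul_comm]; exact hprod)
    have hge := G_ge x h3 p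
    have hge2 := G_ge x h3 (p + 1)
    have ha' := pos_of_mul_sq ha (by omega)
    have hb' := pos_of_mul_sq hb (by
      have := (G_ge x h3 (p + 2)).1
      omega)
    rcases Int.even_or_odd x with hxe | hxo
    · rcases hx with hx | hx
      · exact absurd hxe (Int.not_even_iff_odd.mpr hx)
      · exact even_case x a b hxe p hx ha' hb'
    by_cases hp : p = 0
    · subst hp
      have hF : G (0 + 2) x + s = x ^ 2 + x - 1 := by simp [s, G]; ring
      rw [hF] at hb'
      have h1 : |x| < |b| := by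
        rw [← sq_lt_sq]; nlinarith
      have h2 : |b| < |x + 1| := by
        rw [← sq_lt_sq]; nlinarith
      rw [abs_of_pos (by omega : (0:ℤ) < x)] at h1
      rw [abs_of_pos (by omega : (0:ℤ) < x + 1)] at h2
      omega
    · refine N_not_sq x hxo h3 (p + 2) (by omega) a ?_
      rw [(N_eq x p).1]; exact ha'

theorem descent (z : ℤ) (B : ℕ) : ∀ a n : ℤ, a.toNat ≤ B → 1 < a → a < n →
    n ^ 2 + a ^ 2 - 1 = z * a * n → ∃ i, a = G (i + 1) z ∧ n = G (i + 2) z := by
  induction B with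
  | zero => intro a n h h1; omega
  | succ B ih =>
    intro a n hB h1 han h
    have hn0 : 0 < n := by omega
    have hna : n * (z * a - n) = a ^ 2 - 1 := by linear_combination -h
    have hpos : 0 < z * a - n := by
      by_contra hneg
      push Not at hneg
      nlinarith
    have hlt : z * a - n < a := by
      by_contra hneg
      push Not at hneg
      nlinarith
    by_cases h2 : z * a - n = 1
    · have h3 : a * (z - a) = 0 := by
        rw [h2] at hna; linear_combination h2 + hna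
      have hza : z = a := by
        rcases mul_eq_zero.mp h3 with h4 | h4
        · omega
        · omega
      refine ⟨0, ?_, ?_⟩
      · simp [G, hza]
      · rw [hza] at h2 ⊢; simp [G]; linarith
    · obtain ⟨i, hi1, hi2⟩ := ih (z * a - n) a (by omega) (by omega) hlt (by
        linear_combination h)
      refine ⟨i + 1, hi2, ?_⟩
      have h5 : G (i + 1 + 2) z = z * G (i + 2) z - G (i + 1) z := rfl
      rw [h5, ← hi2, ← hi1]; ring

theorem mutual_sq (n a l : ℤ) (ha : 1 ≤ a) (han : a < n) (h1 : n ∣ a ^ 2 - 1)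
    (h2 : a ∣ n ^ 2 - 1) (hl : n + 1 = l ^ 2) :
    a = 1 ∨ a = n - 1 ∨ a = |l| ∨ ∃ z : ℤ, Even z ∧ n ^ 2 + a ^ 2 - 1 = z * a * n := by
  by_cases ha1 : a = 1
  · exact Or.inl ha1
  by_cases ha2 : a = n - 1
  · exact Or.inr (Or.inl ha2)
  have hcop : IsCoprime a n := by
    obtain ⟨c, hc⟩ := h1
    exact ⟨a, -c, by linear_combination hc⟩
  have hdvd : a * n ∣ n ^ 2 + a ^ 2 - 1 := by
    apply hcop.mul_dvd
    · have : n ^ 2 + a ^ 2 - 1 = (n ^ 2 - 1) + a * a := by ring
      rw [this]; exact dvd_add h2 (dvd_mul_right _ _)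
    · have : n ^ 2 + a ^ 2 - 1 = (a ^ 2 - 1) + n * n := by ring
      rw [this]; exact dvd_add h1 (dvd_mul_right _ _)
  obtain ⟨z, hz⟩ := hdvd
  have hz' : n ^ 2 + a ^ 2 - 1 = z * a * n := by rw [hz]; ring
  rcases Int.even_or_odd z with he | ho
  · exact Or.inr (Or.inr (Or.inr ⟨z, he, hz'⟩))
  have hanpos : 0 < a * n := mul_pos (by omega) (by omega)
  have hz3 : 3 ≤ z := by
    by_contra hlt
    push Not at hlt
    have hz2 : z ≤ 2 := by omega
    have h5 : n ^ 2 + a ^ 2 - 1 ≤ 2 * (a * n) := by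
      rw [hz]; nlinarith
    have h6 : 2 ≤ n - a := by omega
    nlinarith
  obtain ⟨i, hi1, hi2⟩ := descent z a.toNat a n le_rfl (by omega) han hz'
  cases i with
  | zero =>
    have hb1 : a = z := by simpa [G] using hi1
    have hb2 : n = z * z - 1 := by simpa [G] using hi2
    have h7 : l ^ 2 = a ^ 2 := by rw [hb1, ← hl, hb2]; ring
    have h8 : |l| = |a| := by rwa [← sq_eq_sq_iff_abs_eq_abs]
    right; right; left
    rw [h8, abs_of_pos (by omega)]
  | succ i =>
    exfalso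
    exact main z l hz3 (i + 1 + 2) (by omega) (Or.inl ho) (by rw [← hi2]; exact hl)

/-- **Result.** First part: let `k ≥ 3` and `i ≥ 3`, and let one of the following hold: `k` is odd;
the exponent of `2` in `i + 2` is odd (for example `i` divisible by `4`); `i` is `3` or `5` modulo
`8`; `i` is `1` modulo `8` and `8` does not divide `k`. Then the term `G_i(k)` of the chain of `k` is
not equal to the first term `G_2(l) = l ^ 2 - 1` of the chain of any integer `l`.
Second part: if `n + 1 = l ^ 2` is a square and `1 ≤ a < n`, `n ∣ a ^ 2 - 1`, `a ∣ n ^ 2 - 1`, then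
`a` is `1`, `n - 1` or `|l|`, or the integer `(n ^ 2 + a ^ 2 - 1) / (a n)` is even. -/
theorem result :
    (∀ (k l : ℤ) (i : ℕ), 3 ≤ k → 3 ≤ i →
      (Odd k ∨ Odd (padicValNat 2 (i + 2)) ∨ i % 8 = 3 ∨ i % 8 = 5 ∨
        (i % 8 = 1 ∧ ¬ (8 : ℤ) ∣ k)) → G i k ≠ G 2 l) ∧
    (∀ n a l : ℤ, 1 ≤ a → a < n → n ∣ a ^ 2 - 1 → a ∣ n ^ 2 - 1 → n + 1 = l ^ 2 →
      a = 1 ∨ a = n - 1 ∨ a = |l| ∨ ∃ z : ℤ, Even z ∧ n ^ 2 + a ^ 2 - 1 = z * a * n) := by
  refine ⟨?_, fun n a l ha han h1 h2 hl => mutual_sq n a l ha han h1 h2 hl⟩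
  intro k l i h3 hi hk h
  refine main k l h3 i hi hk ?_
  rw [h]
  simp [G]; ring

end Pool.Agent.Results.MP_83ba34_nt.OddSquare
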