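import Mathlib

/-!
# Mutual square-root-of-unity divisors: numbers with one or two large prime powers

For `n > 1` let `𝒜(n)` be the set of all `a` with `1 ≤ a < n`, `n ∣ a² - 1`, `a ∣ n² - 1`. The question is
whether `|𝒜(n)| ≤ 3` for all `n`. We prove this for all `n = p ^ a * l ^ b * r` with odd primes `p ≠ l` and
`4 r ^ 6 ≤ n` (or `8 r ^ 9 ≤ n ^ 2`, if `n + 1` is not a square), and `𝒜(n) ⊆ {1, n - 1}` for `n = p ^ a * r`,
`r ^ 3 ≤ n`. In general, if `n = q r` with such an `r`, then `2 |𝒜(n)| ≤ 2 + ρ(q)`, where `ρ(q)` is the number of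
solutions of `x ^ 2 = 1` modulo `q`.

Proof. Let `n = q r` and `1 < a < b < n - 1` be in `𝒜(n)`, so `n < a ^ 2`. Suppose that `b ≡ e a (mod q)` with
`e = 1` or `e = -1`, `b - e a = j q`, so `0 < j < 2 r` and `r (b - e a) = j n`. The number `a b` divides
`b (n ^ 2 - 1) - e a (n ^ 2 - 1) = j q (n ^ 2 - 1)`, hence `j (n ^ 2 - 1)`, since `a` and `b` are prime to `q`,
hence `j ^ 2 (n ^ 2 - 1) = r ^ 2 (b - e a) ^ 2 - j ^ 2`, and so `r ^ 2 (a ^ 2 + b ^ 2) - j ^ 2 = t a b`. Since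
`a ^ 2`, `b ^ 2` are `1` and `a b` is `e` modulo `q`, we have `t ≡ e (2 r ^ 2 - j ^ 2) (mod q)`; equality is
impossible (`r ^ 2 (b - e a) ^ 2 = j ^ 2 (1 - e a b)` would give `n ^ 2 = 1 - e a b`). So `q ≤ t + 2 r ^ 2`, but
`t a < r ^ 2 (a + b)`, and therefore `a < 2 r ^ 3`, against `4 r ^ 6 ≤ n < a ^ 2`. If `n + 1` is not a square, then
`a ^ 3 > n ^ 2` (with `a ^ 2 - 1 = n c` one has `n + c = a z`, and `z ≤ c` since `c > 1`), against `8 r ^ 9 ≤ n ^ 2`.
Similarly, `a - e = j q` gives `a ∣ r ^ 2 - j ^ 2` and `a < r ^ 2`. So reduction modulo `q` maps the elements of `𝒜(n)` other than `1`, `n - 1`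
injectively to the classes `{x, -x}` of solutions of `x ^ 2 = 1`, `x ≠ 1, -1`, modulo `q`.
-/

set_option autoImplicit false

namespace Pool.Agent.Results.MP_83ba34_nt.SmallCofactor

/-- the set `𝒜(n)` of the problem: `1 ≤ a < n`, `n ∣ a² - 1`, `a ∣ n² - 1` -/
def A (n : ℕ) : Finset ℕ :=
  (Finset.range n).filter fun a => 1 ≤ a ∧ (n : ℤ) ∣ (a : ℤ) ^ 2 - 1 ∧ (a : ℤ) ∣ (n : ℤ) ^ 2 - 1

lemma sq_gt {n a : ℤ} (ha : 1 < a) (h : n ∣ a ^ 2 - 1) : n < a ^ 2 := by
  have := Int.le_of_dvd (by nlinarith) h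
  linarith

lemma pair_lt {n q r a b j e : ℤ} (hr : 0 < r) (hn : n = q * r)
    (hq6 : 6 * r ^ 2 ≤ q) (ha : 1 < a) (hab : a < b) (hb : b < n - 1) (h1 : n ∣ a ^ 2 - 1)
    (h2 : n ∣ b ^ 2 - 1) (h3 : a ∣ n ^ 2 - 1) (h4 : b ∣ n ^ 2 - 1) (he : e = 1 ∨ e = -1)
    (hj : b - e * a = j * q) : a < 2 * r ^ 3 := by
  have hq0 : 0 < q := by nlinarith [pow_pos hr 2]
  have hn0 : 0 < n := by rw [hn]; positivity
  have hsq := sq_gt ha h1
  obtain ⟨k, hk⟩ := h1
  obtain ⟨k', hk'⟩ := h2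
  have hee : e * e = 1 := by rcases he with rfl | rfl <;> norm_num
  have hpos : 0 < b - e * a := by rcases he with rfl | rfl <;> linarith
  have hlt : b - e * a < 2 * n := by rcases he with rfl | rfl <;> linarith
  have hj0 : 0 < j := by
    rw [hj] at hpos
    exact (mul_pos_iff_of_pos_right hq0).1 hpos
  have hj2 : j < 2 * r := by
    by_contra hcon
    push Not at hcon
    have : 2 * r * q ≤ j * q := mul_le_mul_of_nonneg_right hcon hq0.le
    rw [hn] at hlt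
    nlinarith
  have hcop : IsCoprime a q := ⟨a, -(r * k), by rw [hn] at hk; linear_combination hk⟩
  have hcop' : IsCoprime b q := ⟨b, -(r * k'), by rw [hn] at hk'; linear_combination hk'⟩
  have hd1 : a * b ∣ q * (j * (n ^ 2 - 1)) := by
    have e1 : a * b ∣ b * (n ^ 2 - 1) := by
      rw [mul_comm a b]; exact mul_dvd_mul_left b h3
    have e2 : a * b ∣ e * (a * (n ^ 2 - 1)) := (mul_dvd_mul_left a h4).mul_left e
    have := dvd_sub e1 e2
    have e3 : b * (n ^ 2 - 1) - e * (a * (n ^ 2 - 1)) = q * (j * (n ^ 2 - 1)) := by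
      linear_combination (n ^ 2 - 1) * hj
    rwa [e3] at this
  have hd2 : a * b ∣ j * (n ^ 2 - 1) := (IsCoprime.mul_left hcop hcop').dvd_of_dvd_mul_left hd1
  have hrn : r * (b - e * a) = j * n := by rw [hj, hn]; ring
  have hd3 : a * b ∣ r ^ 2 * (a ^ 2 + b ^ 2) - j ^ 2 := by
    have e1 : a * b ∣ j * (j * (n ^ 2 - 1)) := hd2.mul_left j
    have e2 : a * b ∣ a * b * (2 * e * r ^ 2) := dvd_mul_right _ _
    have := dvd_add e1 e2
    have e3 : j * (j * (n ^ 2 - 1)) + a * b * (2 * e * r ^ 2) = r ^ 2 * (a ^ 2 + b ^ 2) - j ^ 2 := by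
      have : (r * (b - e * a)) ^ 2 = (j * n) ^ 2 := by rw [hrn]
      have h5 : (r * (b - e * a)) ^ 2 = r ^ 2 * (b ^ 2 - 2 * e * a * b + (e * e) * a ^ 2) := by ring
      rw [hee] at h5
      linear_combination h5 - this
    rwa [e3] at this
  obtain ⟨t, ht⟩ := hd3
  have hjj : j ^ 2 < 4 * r ^ 2 := by nlinarith
  have hab0 : 0 < a * b := by nlinarith
  have hM : 0 < r ^ 2 * (a ^ 2 + b ^ 2) - j ^ 2 := by
    have : 4 * r ^ 2 ≤ r ^ 2 * (a ^ 2 + b ^ 2) := by nlinarith [pow_pos hr 2]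
    linarith
  have ht0 : 0 < t := by
    rw [ht] at hM
    exact (mul_pos_iff_of_pos_left hab0).1 hM
  -- the congruence
  have hcong : q ∣ t - e * (2 * r ^ 2 - j ^ 2) := by
    refine ⟨e * (r ^ 3 * (k + k') - (e * r * k + a * j) * t), ?_⟩
    have hb' : b = e * a + j * q := by linarith
    have ea : a ^ 2 = 1 + q * r * k := by rw [hn] at hk; linarith
    have eb : b ^ 2 = 1 + q * r * k' := by rw [hn] at hk'; linarith
    have eab : a * b = e + q * (e * r * k + a * j) := by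
      rw [hb']; linear_combination e * ea
    rw [eab, ea, eb] at ht
    have : e * (r ^ 2 * (1 + q * r * k + (1 + q * r * k')) - j ^ 2) =
        e * ((e + q * (e * r * k + a * j)) * t) := by rw [ht]
    linear_combination (-1) * this - t * hee
  by_cases hz : t - e * (2 * r ^ 2 - j ^ 2) = 0
  · exfalso
    have ht' : t = e * (2 * r ^ 2 - j ^ 2) := by linarith
    rw [ht'] at ht
    have hkey : (j * n) ^ 2 = j ^ 2 * (1 - e * (a * b)) := by
      rw [← hrn]
      have h5 : (r * (b - e * a)) ^ 2 = r ^ 2 * (b ^ 2 - 2 * e * a * b + (e * e) * a ^ 2) := by ring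
      rw [h5, hee]
      linear_combination ht
    have hkey' : n ^ 2 = 1 - e * (a * b) := by
      have : j ^ 2 * n ^ 2 = j ^ 2 * (1 - e * (a * b)) := by rw [← hkey]; ring
      exact mul_left_cancel₀ (pow_pos hj0 2).ne' this
    rcases he with rfl | rfl
    · nlinarith
    · have : a * b < (n - 1) * (n - 1) := by
        apply mul_lt_mul'' (by linarith) hb (by linarith) (by linarith)
      nlinarith
  · have h6 : q ≤ |t - e * (2 * r ^ 2 - j ^ 2)| := by
      have := Int.le_of_dvd (abs_pos.2 hz) ((dvd_abs _ _).2 hcong)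
      exact this
    have h7 : |t - e * (2 * r ^ 2 - j ^ 2)| ≤ t + 2 * r ^ 2 := by
      have hj3 : 0 < j ^ 2 := pow_pos hj0 2
      rw [abs_le]
      rcases he with rfl | rfl <;> constructor <;> linarith
    have h8 : q ≤ t + 2 * r ^ 2 := h6.trans h7
    have hb0 : 0 < b := by linarith
    have h9 : t * a < r ^ 2 * (a + b) := by
      have : (t * a) * b < (r ^ 2 * (a + b)) * b := by
        have h10 : (t * a) * b = r ^ 2 * (a ^ 2 + b ^ 2) - j ^ 2 := by rw [ht]; ring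
        rw [h10]
        have : r ^ 2 * a ^ 2 ≤ r ^ 2 * (a * b) := by
          apply mul_le_mul_of_nonneg_left _ (sq_nonneg r)
          nlinarith
        nlinarith [pow_pos hj0 2]
      exact lt_of_mul_lt_mul_right this hb0.le
    have h11 : q * a < 2 * r ^ 2 * n := by
      have h12 : (q - 2 * r ^ 2) * a ≤ t * a := by
        apply mul_le_mul_of_nonneg_right _ (by linarith)
        linarith
      have h13 : r ^ 2 * (a + b) ≤ r ^ 2 * (a + n) := by
        apply mul_le_mul_of_nonneg_left _ (sq_nonneg r)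
        linarith
      have h14 : (q - 3 * r ^ 2) * a < r ^ 2 * n := by nlinarith
      have h15 : q * a ≤ 2 * ((q - 3 * r ^ 2) * a) := by nlinarith
      linarith
    have h16 : a < 2 * r ^ 3 := by
      have : q * a < q * (2 * r ^ 3) := by
        rw [hn] at h11
        linarith [h11, show 2 * r ^ 2 * (q * r) = q * (2 * r ^ 3) by ring]
      exact lt_of_mul_lt_mul_left this hq0.le
    exact h16

/-- apart from `a = √(n + 1)` the elements `a > 1` of `𝒜(n)` are larger than `n ^ (2 / 3)` -/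
lemma cube {n a : ℤ} (ha : 1 < a) (han : a < n) (h1 : n ∣ a ^ 2 - 1) (h3 : a ∣ n ^ 2 - 1)
    (hs : a ^ 2 ≠ n + 1) : n ^ 2 < a ^ 3 := by
  have hn0 : 0 < n := by linarith
  have ha0 : 0 < a := by linarith
  obtain ⟨c, hc⟩ := h1
  have hc0 : 0 < c := by
    have : 0 < n * c := by rw [← hc]; nlinarith
    exact (mul_pos_iff_of_pos_left hn0).1 this
  have hc2 : 2 ≤ c := by
    by_contra hcon
    have : c = 1 := by omega
    subst this
    apply hs
    linarith
  have hz : a ∣ n + c := by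
    have e1 : a ∣ a * (n * a) := dvd_mul_right _ _
    have e2 : a ∣ c * (n ^ 2 - 1) := h3.mul_left c
    have := dvd_sub e1 e2
    rwa [show a * (n * a) - c * (n ^ 2 - 1) = n + c by linear_combination n * hc] at this
  obtain ⟨z, hz⟩ := hz
  have hd : c ^ 2 - 1 = a * (z * c - a) := by linear_combination c * hz + hc
  have hd1 : 1 ≤ z * c - a := by
    have : 0 < a * (z * c - a) := by rw [← hd]; nlinarith
    exact (mul_pos_iff_of_pos_left ha0).1 this
  have hzc : z ≤ c := by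
    by_contra hcon
    push Not at hcon
    have h5 : (c + 1) * c ≤ z * c := mul_le_mul_of_nonneg_right hcon hc0.le
    have h6 : 0 ≤ (a - 1) * (z * c - a - 1) := mul_nonneg (by linarith) (by linarith)
    nlinarith
  have h7 : n * (n + c) ≤ a * (a ^ 2 - 1) := by
    rw [hz, hc]
    have : n * a * z ≤ n * a * c := mul_le_mul_of_nonneg_left hzc (by positivity)
    linarith [this, show n * (a * z) = n * a * z by ring, show a * (n * c) = n * a * c by ring]
  have h8 : 0 < n * c := by positivity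
  nlinarith

lemma triv_false {n q r a j e : ℤ} (hr : 0 < r) (hn : n = q * r)
    (hq : r ^ 4 ≤ n ∨ (r ^ 3 ≤ n ∧ n ≠ 8)) (hq0 : 0 < q)
    (ha : 1 < a) (hb : a < n - 1) (h1 : n ∣ a ^ 2 - 1) (h3 : a ∣ n ^ 2 - 1) (he : e = 1 ∨ e = -1)
    (hj : a - e = j * q) : False := by
  have hsq := sq_gt ha h1
  have hj0 : 0 < j := by
    have : 0 < j * q := by rw [← hj]; rcases he with rfl | rfl <;> linarith
    exact (mul_pos_iff_of_pos_right hq0).1 this
  have hjr : j < r := by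
    have : j * q < r * q := by
      rw [← hj]; rcases he with rfl | rfl <;> nlinarith
    exact lt_of_mul_lt_mul_right this hq0.le
  have hee : e * e = 1 := by rcases he with rfl | rfl <;> norm_num
  have hrn : r * a - e * r = j * n := by rw [hn]; linear_combination r * hj
  have hd : a ∣ r ^ 2 - j ^ 2 := by
    have e1 : a ∣ j ^ 2 * (n ^ 2 - 1) := h3.mul_left _
    have e2 : a ∣ a * (r ^ 2 * a - 2 * e * r ^ 2) := dvd_mul_right _ _
    have := dvd_sub e1 e2
    have e3 : j ^ 2 * (n ^ 2 - 1) - a * (r ^ 2 * a - 2 * e * r ^ 2) = r ^ 2 - j ^ 2 := by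
      have h5 : (r * a - e * r) ^ 2 = (j * n) ^ 2 := by rw [hrn]
      have h6 : (r * a - e * r) ^ 2 = r ^ 2 * a ^ 2 - 2 * e * r ^ 2 * a + (e * e) * r ^ 2 := by ring
      rw [hee] at h6
      linear_combination h6 - h5
    rwa [e3] at this
  have h7 : a ≤ r ^ 2 - j ^ 2 := Int.le_of_dvd (by nlinarith) hd
  have h8 : a < r ^ 2 := by nlinarith [pow_pos hj0 2]
  rcases hq with hq | ⟨hq, hn8⟩
  · have h9 : a ^ 2 < (r ^ 2) ^ 2 := pow_lt_pow_left₀ h8 (by linarith) (by norm_num)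
    have : (r ^ 2) ^ 2 = r ^ 4 := by ring
    linarith
  · by_cases hs : a ^ 2 = n + 1
    · have hqa : q ≤ a + 1 := by
        have : 1 * q ≤ j * q := mul_le_mul_of_nonneg_right hj0 hq0.le
        rcases he with rfl | rfl <;> linarith
      have hra : a - 1 ≤ r := by
        have : (a + 1) * (a - 1) ≤ (a + 1) * r := by
          have h10 : q * r ≤ (a + 1) * r := mul_le_mul_of_nonneg_right hqa hr.le
          nlinarith
        exact le_of_mul_le_mul_left this (by linarith)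
      have h11 : (a - 1) ^ 3 ≤ r ^ 3 := pow_le_pow_left₀ (by linarith) hra 3
      have ha3 : a ≤ 3 := by
        by_contra hcon
        have : 4 ≤ a := by omega
        nlinarith [mul_pos (show 0 < a - 1 by linarith) (show 0 < a - 3 by linarith)]
      have : a = 2 ∨ a = 3 := by omega
      rcases this with rfl | rfl
      · have : n = 3 := by linarith
        linarith
      · exact hn8 (by linarith)
    · have h12 := cube ha (by linarith) h1 h3 hs
      have h13 : a ^ 3 < (r ^ 2) ^ 3 := pow_lt_pow_left₀ h8 (by linarith) (by norm_num)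
      have h14 : (r ^ 3) ^ 2 ≤ n ^ 2 := pow_le_pow_left₀ (by positivity) hq 2
      have : (r ^ 2) ^ 3 = (r ^ 3) ^ 2 := by ring
      linarith

lemma mem_A {n a : ℕ} : a ∈ A n ↔ a < n ∧ 1 ≤ a ∧ (n : ℤ) ∣ (a : ℤ) ^ 2 - 1 ∧ (a : ℤ) ∣ (n : ℤ) ^ 2 - 1 := by
  simp [A]

/-- nontrivial elements are not congruent to `±1` modulo a divisor with small cofactor -/
lemma triv_nat {n q r x : ℕ} (hn : n = q * r) (hq : r ^ 4 ≤ n ∨ (r ^ 3 ≤ n ∧ n ≠ 8)) (hx : x ∈ A n) (hx1 : x ≠ 1)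
    (hxn : x ≠ n - 1) (h : (q : ℤ) ∣ (x : ℤ) - 1 ∨ (q : ℤ) ∣ (x : ℤ) + 1) : False := by
  rw [mem_A] at hx
  obtain ⟨h0, h1, h2, h3⟩ := hx
  have hn0 : 0 < n := by omega
  have hr : 0 < r := Nat.pos_of_ne_zero (by rintro rfl; simp at hn; omega)
  have hq0 : 0 < q := Nat.pos_of_ne_zero (by rintro rfl; simp at hn; omega)
  have hn' : (n : ℤ) = (q : ℤ) * r := by exact_mod_cast hn
  have hx2 : (1 : ℤ) < x := by exact_mod_cast (by omega : 1 < x)
  have hx3 : (x : ℤ) < n - 1 := by omega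
  rcases h with ⟨j, hj⟩ | ⟨j, hj⟩
  · exact triv_false (e := 1) (j := j) (by exact_mod_cast hr) hn' (by exact_mod_cast hq)
      (by exact_mod_cast hq0) hx2 hx3 h2 h3 (Or.inl rfl) (by rw [hj]; ring)
  · exact triv_false (e := -1) (j := j) (by exact_mod_cast hr) hn' (by exact_mod_cast hq)
      (by exact_mod_cast hq0) hx2 hx3 h2 h3 (Or.inr rfl) (by linear_combination hj)

/-- two different nontrivial elements are not congruent up to sign modulo a divisor with small cofactor -/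
lemma pair_nat {n q r x y : ℕ} (hn : n = q * r)
    (hq : 4 * r ^ 6 ≤ n ∨ (¬ IsSquare (n + 1) ∧ 8 * r ^ 9 ≤ n ^ 2)) (hn6 : 6 ≤ n) (hx : x ∈ A n)
    (hx1 : x ≠ 1) (hxn : x ≠ n - 1) (hy : y ∈ A n) (hy1 : y ≠ 1) (hyn : y ≠ n - 1) (hxy : x ≠ y)
    (h : (q : ℤ) ∣ (x : ℤ) - y ∨ (q : ℤ) ∣ (x : ℤ) + y) : False := by
  wlog hlt : x < y generalizing x y
  · refine this hy hy1 hyn hx hx1 hxn hxy.symm ?_ (by omega)
    rcases h with h | h
    · left; rw [← neg_sub]; exact (dvd_neg).2 h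
    · right; rwa [add_comm]
  rw [mem_A] at hx hy
  obtain ⟨h0, h1, h2, h3⟩ := hx
  obtain ⟨g0, g1, g2, g3⟩ := hy
  have hr : 0 < r := Nat.pos_of_ne_zero (by rintro rfl; simp at hn; omega)
  have hn' : (n : ℤ) = (q : ℤ) * r := by exact_mod_cast hn
  have hq6 : 6 * r ^ 2 ≤ q := by
    rcases Nat.lt_or_ge r 2 with h' | h'
    · have : r = 1 := by omega
      subst this
      omega
    · have h8 : 2 ^ 3 ≤ r ^ 3 := Nat.pow_le_pow_left h' 3
      rcases hq with hq | ⟨-, hq⟩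
      · have hq5 : 4 * r ^ 5 ≤ q := by
          have : 4 * r ^ 5 * r ≤ q * r := by
            rw [← hn]
            calc 4 * r ^ 5 * r = 4 * r ^ 6 := by ring
              _ ≤ n := hq
          exact Nat.le_of_mul_le_mul_right this hr
        have : 6 * r ^ 2 ≤ 4 * r ^ 5 := by
          calc 6 * r ^ 2 ≤ 4 * (2 ^ 3) * r ^ 2 := by nlinarith [sq_nonneg r]
            _ ≤ 4 * r ^ 3 * r ^ 2 := by gcongr
            _ = 4 * r ^ 5 := by ring
        omega
      · by_contra hcon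
        push Not at hcon
        have h9 : 8 * r ^ 7 * r ^ 2 ≤ q ^ 2 * r ^ 2 := by
          calc 8 * r ^ 7 * r ^ 2 = 8 * r ^ 9 := by ring
            _ ≤ n ^ 2 := hq
            _ = q ^ 2 * r ^ 2 := by rw [hn]; ring
        have h10 : 8 * r ^ 7 ≤ q ^ 2 := Nat.le_of_mul_le_mul_right h9 (pow_pos hr 2)
        have h11 : q ^ 2 < (6 * r ^ 2) ^ 2 := Nat.pow_lt_pow_left hcon (by norm_num)
        have h12 : 8 * r ^ 3 * r ^ 4 < 36 * r ^ 4 := by
          calc 8 * r ^ 3 * r ^ 4 = 8 * r ^ 7 := by ring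
            _ ≤ q ^ 2 := h10
            _ < (6 * r ^ 2) ^ 2 := h11
            _ = 36 * r ^ 4 := by ring
        have h13 : 8 * r ^ 3 < 36 := Nat.lt_of_mul_lt_mul_right h12
        omega
  have hx2 : (1 : ℤ) < x := by exact_mod_cast (by omega : 1 < x)
  have hy3 : (y : ℤ) < n - 1 := by omega
  have key : (x : ℤ) < 2 * (r : ℤ) ^ 3 := by
    rcases h with ⟨j, hj⟩ | ⟨j, hj⟩
    · exact pair_lt (e := 1) (j := -j) (by exact_mod_cast hr) hn'
        (by exact_mod_cast hq6) hx2 (by exact_mod_cast hlt) hy3 h2 g2 h3 g3 (Or.inl rfl)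
        (by linear_combination (-1) * hj)
    · exact pair_lt (e := -1) (j := j) (by exact_mod_cast hr) hn'
        (by exact_mod_cast hq6) hx2 (by exact_mod_cast hlt) hy3 h2 g2 h3 g3 (Or.inr rfl)
        (by linear_combination hj)
  rcases hq with hq | ⟨hs, hq⟩
  · have h17 : (x : ℤ) ^ 2 < (2 * (r : ℤ) ^ 3) ^ 2 :=
      pow_lt_pow_left₀ key (by linarith) (by norm_num)
    have h18 : 4 * (r : ℤ) ^ 6 ≤ n := by exact_mod_cast hq
    have h19 : (2 * (r : ℤ) ^ 3) ^ 2 = 4 * (r : ℤ) ^ 6 := by ring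
    have := sq_gt hx2 h2
    linarith
  · have h17 : (x : ℤ) ^ 3 < (2 * (r : ℤ) ^ 3) ^ 3 :=
      pow_lt_pow_left₀ key (by linarith) (by norm_num)
    have h18 : 8 * (r : ℤ) ^ 9 ≤ (n : ℤ) ^ 2 := by exact_mod_cast hq
    have h19 : (2 * (r : ℤ) ^ 3) ^ 3 = 8 * (r : ℤ) ^ 9 := by ring
    have h20 : (x : ℤ) ^ 2 ≠ n + 1 := by
      intro h21
      apply hs
      refine ⟨x, ?_⟩
      have : x ^ 2 = n + 1 := by exact_mod_cast h21
      rw [← this]; ring
    have := cube hx2 (by exact_mod_cast h0) h2 h3 h20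
    linarith

lemma triv_cond {n r : ℕ} (hn : 1 ≤ n) (hr : 0 < r)
    (hq : 4 * r ^ 6 ≤ n ∨ (¬ IsSquare (n + 1) ∧ 8 * r ^ 9 ≤ n ^ 2)) :
    r ^ 4 ≤ n ∨ (r ^ 3 ≤ n ∧ n ≠ 8) := by
  rcases hq with hq | ⟨hs, hq⟩
  · left
    have : r ^ 4 ≤ r ^ 6 := Nat.pow_le_pow_right hr (by norm_num)
    omega
  · right
    constructor
    · by_contra hcon
      push Not at hcon
      have h1 : n ^ 3 < (r ^ 3) ^ 3 := Nat.pow_lt_pow_left hcon (by norm_num)
      have h2 : n ^ 2 ≤ n ^ 3 := Nat.pow_le_pow_right hn (by norm_num)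
      have h3 : (r ^ 3) ^ 3 = r ^ 9 := by ring
      omega
    · rintro rfl
      exact hs ⟨3, rfl⟩

lemma prime_pow_dvd {p : ℕ} (hp : p.Prime) (hp2 : 2 < p) (a : ℕ) {x : ℤ}
    (h : ((p ^ a : ℕ) : ℤ) ∣ x ^ 2 - 1) : ((p ^ a : ℕ) : ℤ) ∣ x - 1 ∨ ((p ^ a : ℕ) : ℤ) ∣ x + 1 := by
  have hP : Prime (p : ℤ) := Nat.prime_iff_prime_int.1 hp
  have hfac : x ^ 2 - 1 = (x - 1) * (x + 1) := by ring
  rw [hfac] at h
  push_cast at h ⊢
  by_cases h1 : (p : ℤ) ∣ x + 1
  · have h2 : ¬ (p : ℤ) ∣ x - 1 := by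
      intro h2
      have h3 : (p : ℤ) ∣ 2 := by
        have := dvd_sub h1 h2
        rwa [show x + 1 - (x - 1) = 2 by ring] at this
      have := Int.le_of_dvd (by norm_num) h3
      have : p ≤ 2 := by exact_mod_cast this
      omega
    have hc : IsCoprime ((p : ℤ) ^ a) (x - 1) := ((Prime.coprime_iff_not_dvd hP).2 h2).pow_left
    exact Or.inr (hc.dvd_of_dvd_mul_left h)
  · have hc : IsCoprime ((p : ℤ) ^ a) (x + 1) := ((Prime.coprime_iff_not_dvd hP).2 h1).pow_left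
    exact Or.inl (hc.dvd_of_dvd_mul_right h)

theorem one_prime {n p a r : ℕ} (hp : p.Prime) (hp2 : 2 < p) (hn : n = p ^ a * r) (hr : r ^ 3 ≤ n) :
    A n ⊆ {1, n - 1} := by
  have hn8 : n ≠ 8 := by
    rintro rfl
    have hr2 : r ≤ 2 := by
      by_contra hcon
      have : 3 ^ 3 ≤ r ^ 3 := Nat.pow_le_pow_left (by omega) 3
      omega
    have ha : a ≠ 0 := by
      rintro rfl
      simp at hn
      omega
    have h1 : p ∣ 2 ^ 3 := by
      have : p ∣ p ^ a * r := (dvd_pow_self p ha).mul_right r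
      rw [← hn] at this
      simpa using this
    have h2 := Nat.le_of_dvd (by norm_num) (hp.dvd_of_dvd_pow h1)
    omega
  intro x hx
  by_contra hcon
  simp only [Finset.mem_insert, Finset.mem_singleton, not_or] at hcon
  have h2 := (mem_A.1 hx).2.2.1
  have hd : ((p ^ a : ℕ) : ℤ) ∣ (x : ℤ) ^ 2 - 1 := by
    refine dvd_trans ?_ h2
    rw [hn]; push_cast; exact dvd_mul_right _ _
  exact triv_nat hn (Or.inr ⟨hr, hn8⟩) hx hcon.1 hcon.2 (prime_pow_dvd hp hp2 a hd)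

theorem two_primes {n p l a b r : ℕ} (hp : p.Prime) (hl : l.Prime) (hp2 : 2 < p) (hl2 : 2 < l)
    (hpl : p ≠ l) (hn : n = p ^ a * l ^ b * r)
    (hr : 4 * r ^ 6 ≤ n ∨ (¬ IsSquare (n + 1) ∧ 8 * r ^ 9 ≤ n ^ 2)) : (A n).card ≤ 3 := by
  rcases Nat.lt_or_ge n 6 with hn6 | hn6
  · have : (A n).card ≤ 3 := by
      have : ∀ m < 6, (A m).card ≤ 3 := by decide
      exact this n hn6
    exact this
  by_contra hcard
  push Not at hcard
  set B := ((A n).erase 1).erase (n - 1) with hB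
  have hBc : 1 < B.card := by
    have h1 := Finset.pred_card_le_card_erase (s := A n) (a := 1)
    have h2 := Finset.pred_card_le_card_erase (s := (A n).erase 1) (a := n - 1)
    rw [hB]
    omega
  obtain ⟨x, hx, y, hy, hxy⟩ := Finset.one_lt_card.1 hBc
  rw [hB] at hx hy
  simp only [Finset.mem_erase] at hx hy
  obtain ⟨hxn, hx1, hxA⟩ := hx
  obtain ⟨hyn, hy1, hyA⟩ := hy
  have hr0 : 0 < r := Nat.pos_of_ne_zero (by rintro rfl; simp at hn; omega)
  have hr4 := triv_cond (by omega) hr0 hr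
  have hcop : IsCoprime ((p ^ a : ℕ) : ℤ) ((l ^ b : ℕ) : ℤ) := by
    rw [Nat.isCoprime_iff_coprime]
    exact Nat.Coprime.pow _ _ ((Nat.coprime_primes hp hl).2 hpl)
  have hcomb : ∀ z : ℤ, ((p ^ a : ℕ) : ℤ) ∣ z → ((l ^ b : ℕ) : ℤ) ∣ z → ((p ^ a * l ^ b : ℕ) : ℤ) ∣ z := by
    intro z h1 h2
    have := hcop.mul_dvd h1 h2
    exact_mod_cast this
  have hdp : ∀ z : ℤ, (n : ℤ) ∣ z → ((p ^ a : ℕ) : ℤ) ∣ z := fun z hz =>
    dvd_trans ⟨((l ^ b * r : ℕ) : ℤ), by rw [hn]; push_cast; ring⟩ hz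
  have hdl : ∀ z : ℤ, (n : ℤ) ∣ z → ((l ^ b : ℕ) : ℤ) ∣ z := fun z hz =>
    dvd_trans ⟨((p ^ a * r : ℕ) : ℤ), by rw [hn]; push_cast; ring⟩ hz
  have hpx := prime_pow_dvd hp hp2 a (hdp _ (mem_A.1 hxA).2.2.1)
  have hlx := prime_pow_dvd hl hl2 b (hdl _ (mem_A.1 hxA).2.2.1)
  have hpy := prime_pow_dvd hp hp2 a (hdp _ (mem_A.1 hyA).2.2.1)
  have hly := prime_pow_dvd hl hl2 b (hdl _ (mem_A.1 hyA).2.2.1)
  have tx := fun h => triv_nat hn hr4 hxA hx1 hxn h
  have ty := fun h => triv_nat hn hr4 hyA hy1 hyn h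
  have txy := fun h => pair_nat hn hr hn6 hxA hx1 hxn hyA hy1 hyn hxy h
  have s1 : ∀ {m z w : ℤ}, m ∣ z - 1 → m ∣ w - 1 → m ∣ z - w := fun h1 h2 => by
    have := dvd_sub h1 h2; simpa using this
  have s2 : ∀ {m z w : ℤ}, m ∣ z + 1 → m ∣ w + 1 → m ∣ z - w := fun h1 h2 => by
    have := dvd_sub h1 h2; simpa using this
  have s3 : ∀ {m z w : ℤ}, m ∣ z - 1 → m ∣ w + 1 → m ∣ z + w := fun {m z w} h1 h2 => by
    have := dvd_add h1 h2
    rwa [show z - 1 + (w + 1) = z + w by ring] at this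
  have s4 : ∀ {m z w : ℤ}, m ∣ z + 1 → m ∣ w - 1 → m ∣ z + w := fun {m z w} h1 h2 => by
    have := dvd_add h1 h2
    rwa [show z + 1 + (w - 1) = z + w by ring] at this
  rcases hpx with hpx | hpx <;> rcases hlx with hlx | hlx
  · exact tx (Or.inl (hcomb _ hpx hlx))
  · rcases hpy with hpy | hpy <;> rcases hly with hly | hly
    · exact ty (Or.inl (hcomb _ hpy hly))
    · exact txy (Or.inl (hcomb _ (s1 hpx hpy) (s2 hlx hly)))
    · exact txy (Or.inr (hcomb _ (s3 hpx hpy) (s4 hlx hly)))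
    · exact ty (Or.inr (hcomb _ hpy hly))
  · rcases hpy with hpy | hpy <;> rcases hly with hly | hly
    · exact ty (Or.inl (hcomb _ hpy hly))
    · exact txy (Or.inr (hcomb _ (s4 hpx hpy) (s3 hlx hly)))
    · exact txy (Or.inl (hcomb _ (s2 hpx hpy) (s1 hlx hly)))
    · exact ty (Or.inr (hcomb _ hpy hly))
  · exact tx (Or.inr (hcomb _ hpx hlx))

theorem general {n q r : ℕ} (hn1 : 1 < n) (hn : n = q * r)
    (hr : 4 * r ^ 6 ≤ n ∨ (¬ IsSquare (n + 1) ∧ 8 * r ^ 9 ≤ n ^ 2)) :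
    2 * (A n).card ≤ 2 + Nat.card {x : ZMod q // x ^ 2 = 1} := by
  have hr0 : 0 < r := Nat.pos_of_ne_zero (by rintro rfl; simp at hn; omega)
  have hq4 : 3 ≤ q := by
    rcases hr with hr | ⟨-, hr⟩
    · have h1 : 1 ≤ r ^ 5 := Nat.one_le_pow _ _ hr0
      have : 4 * r ^ 5 * r ≤ q * r := by
        rw [← hn]
        calc 4 * r ^ 5 * r = 4 * r ^ 6 := by ring
          _ ≤ n := hr
      have := Nat.le_of_mul_le_mul_right this hr0
      omega
    · have h1 : 1 ≤ r ^ 7 := Nat.one_le_pow _ _ hr0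
      have h9 : 8 * r ^ 7 * r ^ 2 ≤ q ^ 2 * r ^ 2 := by
        calc 8 * r ^ 7 * r ^ 2 = 8 * r ^ 9 := by ring
          _ ≤ n ^ 2 := hr
          _ = q ^ 2 * r ^ 2 := by rw [hn]; ring
      have h10 : 8 * r ^ 7 ≤ q ^ 2 := Nat.le_of_mul_le_mul_right h9 (pow_pos hr0 2)
      by_contra hcon
      have : q ≤ 2 := by omega
      have : q ^ 2 ≤ 2 ^ 2 := Nat.pow_le_pow_left this 2
      omega
  have : NeZero q := ⟨by omega⟩
  have hr4 := triv_cond (by omega) hr0 hr
  have hz : ∀ z : ℤ, ((z : ℤ) : ZMod q) = 0 ↔ (q : ℤ) ∣ z := CharP.intCast_eq_zero_iff (ZMod q) q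
  have h2q : ¬ (q : ℤ) ∣ 2 := by
    intro h
    have := Int.le_of_dvd (by norm_num) h
    omega
  have h11 : (1 : ZMod q) ≠ -1 := by
    intro h
    apply h2q
    rw [← hz]
    push_cast
    linear_combination h
  classical
  set R : Finset (ZMod q) := Finset.univ.filter fun x => x ^ 2 = 1 with hR
  have hRc : Nat.card {x : ZMod q // x ^ 2 = 1} = R.card := by
    rw [Nat.card_eq_fintype_card, Fintype.card_subtype]
  rw [hRc]
  set B := if n < 6 then ∅ else ((A n).erase 1).erase (n - 1) with hB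
  have hBc : (A n).card ≤ B.card + 2 := by
    rw [hB]
    split_ifs with h6
    · have : ∀ m < 6, (A m).card ≤ 2 := by decide
      simpa using this n h6
    · have h1 := Finset.pred_card_le_card_erase (s := A n) (a := 1)
      have h2 := Finset.pred_card_le_card_erase (s := (A n).erase 1) (a := n - 1)
      omega
  have hmem : ∀ x ∈ B, 6 ≤ n ∧ x ∈ A n ∧ x ≠ 1 ∧ x ≠ n - 1 := by
    intro x hx
    rw [hB] at hx
    split_ifs at hx with h6
    · simp at hx
    · simp only [Finset.mem_erase] at hx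
      exact ⟨by omega, hx.2.2, hx.2.1, hx.1⟩
  have hdq : ∀ z : ℤ, (n : ℤ) ∣ z → (q : ℤ) ∣ z := fun z hz' =>
    dvd_trans ⟨(r : ℤ), by rw [hn]; push_cast; ring⟩ hz'
  have hsq : ∀ x ∈ B, ((x : ℕ) : ZMod q) ^ 2 = 1 := by
    intro x hx
    have := (hz _).2 (hdq _ (mem_A.1 (hmem x hx).2.1).2.2.1)
    push_cast at this
    linear_combination this
  have hne1 : ∀ x ∈ B, ((x : ℕ) : ZMod q) ≠ 1 := by
    intro x hx h
    obtain ⟨h6, hA, hx1, hxn⟩ := hmem x hx
    refine triv_nat hn hr4 hA hx1 hxn (Or.inl ?_)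
    rw [← hz]; push_cast; rw [h]; ring
  have hne2 : ∀ x ∈ B, ((x : ℕ) : ZMod q) ≠ -1 := by
    intro x hx h
    obtain ⟨h6, hA, hx1, hxn⟩ := hmem x hx
    refine triv_nat hn hr4 hA hx1 hxn (Or.inr ?_)
    rw [← hz]; push_cast; rw [h]; ring
  have hinj : ∀ x ∈ B, ∀ y ∈ B, ((x : ℕ) : ZMod q) = y → x = y := by
    intro x hx y hy h
    by_contra hxy
    obtain ⟨h6, hA, hx1, hxn⟩ := hmem x hx
    obtain ⟨-, hA', hy1, hyn⟩ := hmem y hy
    refine pair_nat hn hr h6 hA hx1 hxn hA' hy1 hyn hxy (Or.inl ?_)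
    rw [← hz]; push_cast; rw [h]; ring
  have hneg : ∀ x ∈ B, ∀ y ∈ B, ((x : ℕ) : ZMod q) ≠ -(y : ZMod q) := by
    intro x hx y hy h
    obtain ⟨h6, hA, hx1, hxn⟩ := hmem x hx
    obtain ⟨-, hA', hy1, hyn⟩ := hmem y hy
    by_cases hxy : x = y
    · subst hxy
      apply h2q
      rw [← hz]
      push_cast
      have h1 := hsq x hx
      linear_combination (x : ZMod q) * h - 2 * h1
    · refine pair_nat hn hr h6 hA hx1 hxn hA' hy1 hyn hxy (Or.inr ?_)
      rw [← hz]; push_cast; rw [h]; ring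
  have c1 : (B.image fun x : ℕ => (x : ZMod q)).card = B.card :=
    Finset.card_image_of_injOn fun x hx y hy h => hinj x hx y hy h
  have c2 : (B.image fun x : ℕ => -(x : ZMod q)).card = B.card :=
    Finset.card_image_of_injOn fun x hx y hy h => hinj x hx y hy (neg_injective h)
  have c3 : ({1, -1} : Finset (ZMod q)).card = 2 := Finset.card_pair h11
  have d1 : Disjoint (B.image fun x : ℕ => (x : ZMod q)) (B.image fun x : ℕ => -(x : ZMod q)) := by
    rw [Finset.disjoint_left]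
    intro z h1 h2
    obtain ⟨x, hx, rfl⟩ := Finset.mem_image.1 h1
    obtain ⟨y, hy, hxy⟩ := Finset.mem_image.1 h2
    exact hneg x hx y hy hxy.symm
  have d2 : Disjoint ((B.image fun x : ℕ => (x : ZMod q)) ∪ (B.image fun x : ℕ => -(x : ZMod q)))
      ({1, -1} : Finset (ZMod q)) := by
    rw [Finset.disjoint_left]
    intro z h1 h2
    rw [Finset.mem_insert, Finset.mem_singleton] at h2
    rcases Finset.mem_union.1 h1 with h1 | h1
    · obtain ⟨x, hx, rfl⟩ := Finset.mem_image.1 h1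
      exact h2.elim (hne1 x hx) (hne2 x hx)
    · obtain ⟨x, hx, rfl⟩ := Finset.mem_image.1 h1
      rcases h2 with h2 | h2
      · exact hne2 x hx (by rw [← h2]; ring)
      · exact hne1 x hx (by linear_combination (-1) * h2)
  have hsub : ((B.image fun x : ℕ => (x : ZMod q)) ∪ (B.image fun x : ℕ => -(x : ZMod q))) ∪
      ({1, -1} : Finset (ZMod q)) ⊆ R := by
    intro z hz'
    rw [hR, Finset.mem_filter]
    refine ⟨Finset.mem_univ _, ?_⟩
    rcases Finset.mem_union.1 hz' with h1 | h1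
    · rcases Finset.mem_union.1 h1 with h1 | h1
      · obtain ⟨x, hx, rfl⟩ := Finset.mem_image.1 h1
        exact hsq x hx
      · obtain ⟨x, hx, rfl⟩ := Finset.mem_image.1 h1
        rw [neg_sq]; exact hsq x hx
    · rw [Finset.mem_insert, Finset.mem_singleton] at h1
      rcases h1 with rfl | rfl <;> ring
  have := Finset.card_le_card hsub
  rw [Finset.card_union_of_disjoint d2, Finset.card_union_of_disjoint d1, c1, c2, c3] at this
  omega

/-- (1) If `n = p ^ a * r` with an odd prime `p` and `r ^ 3 ≤ n`, then `𝒜(n)` has no elements besides `1` and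
`n - 1`. (2) If `n = p ^ a * l ^ b * r` with odd primes `p ≠ l` and either `4 r ^ 6 ≤ n`, or `n + 1` is not a
square and `8 r ^ 9 ≤ n ^ 2`, then `|𝒜(n)| ≤ 3`. (3) If `n = q r > 1` and either `4 r ^ 6 ≤ n`, or `n + 1` is not a
square and `8 r ^ 9 ≤ n ^ 2`, then `2 |𝒜(n)| ≤ 2 + ρ(q)`, where `ρ(q)` is the number of `x` modulo `q` with
`x ^ 2 = 1`. -/
theorem result :
    (∀ n p a r : ℕ, p.Prime → 2 < p → n = p ^ a * r → r ^ 3 ≤ n → A n ⊆ {1, n - 1}) ∧
    (∀ n p l a b r : ℕ, p.Prime → l.Prime → 2 < p → 2 < l → p ≠ l → n = p ^ a * l ^ b * r →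
      (4 * r ^ 6 ≤ n ∨ (¬ IsSquare (n + 1) ∧ 8 * r ^ 9 ≤ n ^ 2)) → (A n).card ≤ 3) ∧
    (∀ n q r : ℕ, 1 < n → n = q * r →
      (4 * r ^ 6 ≤ n ∨ (¬ IsSquare (n + 1) ∧ 8 * r ^ 9 ≤ n ^ 2)) →
      2 * (A n).card ≤ 2 + Nat.card {x : ZMod q // x ^ 2 = 1}) :=
  ⟨fun _ _ _ _ hp hp2 hn hr => one_prime hp hp2 hn hr,
    fun _ _ _ _ _ _ hp hl hp2 hl2 hpl hn hr => two_primes hp hl hp2 hl2 hpl hn hr,
    fun _ _ _ hn1 hn hr => general hn1 hn hr⟩

end Pool.Agent.Results.MP_83ba34_nt.SmallCofactor
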