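import Mathlib

/-!
# Mutual square roots of unity for the integers one less than a square

The chain of an integer `k` consists of the numbers `G i k`, `i ≥ 2`, where `G 0 = 1`, `G 1 = x`
and `G (i + 2) = x * G (i + 1) - G i`.  The conjecture says that the chains of different integers
`k, l ≥ 3` have no common term.  Most members of the chains are second terms
`G 2 l = l ^ 2 - 1`.  We show that such a number is a term of index `j ≥ 3` of the chain of
`k ≥ 3` only if `k` is even and `l` is not a prime power.  Hence the set `A n` of the problem has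
at most three members if `n + 1` is the square of a prime power.

Proof.  Up to the square of `k` the number `G j k + 1` is a product of two coprime factors larger
than one.  If `k` is odd, one of these factors is not a square, because it is a quadratic
nonresidue modulo a number of the form `C (2 ^ a)`, which is `7` modulo `8`; here
`C n = x ^ n + x ^ (-n)` and `x + 1 / x = k`.
-/

set_option autoImplicit false

namespace Pool.Agent.Results.MP_83ba34_nt.SquareSuccessors

open Polynomial.Chebyshev NumberTheorySymbols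

/-- The terms of the chain of `k`. -/
def G (k : ℤ) : ℕ → ℤ
  | 0 => 1
  | 1 => k
  | (n + 2) => k * G k (n + 1) - G k n

noncomputable def s (k n : ℤ) : ℤ := (S ℤ n).eval k

noncomputable def c (k n : ℤ) : ℤ := (C ℤ n).eval k

theorem s_rec (k n : ℤ) : s k (n + 2) = k * s k (n + 1) - s k n := by
  simp [s, S_add_two]

theorem c_rec (k n : ℤ) : c k (n + 2) = k * c k (n + 1) - c k n := by
  simp [c, C_add_two]

theorem s_zero (k : ℤ) : s k 0 = 1 := by simp [s]
theorem s_one (k : ℤ) : s k 1 = k := by simp [s]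
theorem s_neg_one (k : ℤ) : s k (-1) = 0 := by simp [s]
theorem s_neg_two (k : ℤ) : s k (-2) = -1 := by simp [s]
theorem c_zero (k : ℤ) : c k 0 = 2 := by simp [c]
theorem c_one (k : ℤ) : c k 1 = k := by simp [c]
theorem c_neg_one (k : ℤ) : c k (-1) = k := by simp [c]

theorem G_eq (k : ℤ) : ∀ n : ℕ, G k n = s k n
  | 0 => by simp [G, s_zero]
  | 1 => by simp [G, s_one]
  | (n + 2) => by
    have h := s_rec k n
    rw [G, G_eq k (n + 1), G_eq k n]
    push_cast
    rw [h]

theorem shift (k : ℤ) (f : ℤ → ℤ) (hf : ∀ n, f (n + 2) = k * f (n + 1) - f n) :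
    ∀ (h : ℕ) (n : ℤ), f (n + h) + f (n - h) = c k h * f n
  | 0, n => by simp [c_zero]; ring
  | 1, n => by
    have h := hf (n - 1)
    have e1 : n - 1 + 2 = n + 1 := by ring
    have e2 : n - 1 + 1 = n := by ring
    rw [e1, e2] at h
    simp only [Nat.cast_one, c_one]
    linarith
  | (h + 2), n => by
    have h1 := shift k f hf (h + 1) n
    have h0 := shift k f hf h n
    have a1 := hf (n + h)
    have a2 := hf (n - h - 2)
    have e1 : n - h - 2 + 2 = n - h := by ring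
    have e2 : n - h - 2 + 1 = n - (h + 1) := by ring
    rw [e1, e2] at a2
    have e3 : n + h + 2 = n + (h + 2) := by ring
    have e4 : n + h + 1 = n + (h + 1) := by ring
    have e5 : n - h - 2 = n - (h + 2) := by ring
    rw [e3, e4] at a1
    rw [e5] at a2
    have cr := c_rec k h
    push_cast at h1 ⊢
    rw [cr]
    linear_combination k * h1 - h0 + a1 + a2

theorem c_double (k : ℤ) (h : ℕ) : c k (2 * h) = c k h ^ 2 - 2 := by
  have := shift k (c k) (c_rec k) h h
  have e : (h : ℤ) + h = 2 * h := by ring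
  rw [e, sub_self, c_zero] at this
  linarith

/-- shift by `2 h g`, `g` odd -/
theorem shift_dvd (k : ℤ) (f : ℤ → ℤ) (hf : ∀ n, f (n + 2) = k * f (n + 1) - f n) (h : ℕ)
    (i : ℕ) (n : ℤ) : c k h ∣ f (n + 2 * h * (2 * i + 1)) + f n := by
  induction i with
  | zero =>
    have := shift k f hf h (n + h)
    have e : n + h + h = n + 2 * h * (2 * (0 : ℕ) + 1) := by push_cast; ring
    have e' : n + h - h = n := by ring
    rw [e, e'] at this
    rw [this]
    exact Dvd.intro _ rfl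
  | succ i ih =>
    have h1 := shift k f hf h (n + 2 * h * (2 * i + 1) + h)
    have h2 := shift k f hf h (n + 2 * h * (2 * i + 1) + 3 * h)
    have e1 : n + 2 * h * (2 * i + 1) + h + h = n + 2 * h * (2 * i + 1) + 2 * h := by ring
    have e2 : n + 2 * h * (2 * i + 1) + h - h = n + 2 * h * (2 * (i : ℤ) + 1) := by ring
    have e3 : n + 2 * h * (2 * i + 1) + 3 * h + h = n + 2 * h * (2 * ((i + 1 : ℕ) : ℤ) + 1) := by
      push_cast; ring
    have e4 : n + 2 * h * (2 * i + 1) + 3 * h - h = n + 2 * h * (2 * i + 1) + 2 * h := by ring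
    rw [e1, e2] at h1
    rw [e3, e4] at h2
    have h3 : f (n + 2 * h * (2 * ((i + 1 : ℕ) : ℤ) + 1)) + f n =
        c k h * (f (n + 2 * h * (2 * i + 1) + 3 * h) - f (n + 2 * h * (2 * i + 1) + h)) +
        (f (n + 2 * h * (2 * i + 1)) + f n) := by
      linear_combination h2 - h1
    rw [h3]
    exact dvd_add (Dvd.intro _ rfl) ih

theorem odd_sq {k : ℤ} (hk : Odd k) : k ^ 2 % 8 = 1 := by
  have h : k % 8 = 1 ∨ k % 8 = 3 ∨ k % 8 = 5 ∨ k % 8 = 7 := by
    rw [Int.odd_iff] at hk; omega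
  rcases h with h | h | h | h <;> simp [pow_two, Int.mul_emod, h]

/-- the moduli -/
theorem modulus (k : ℤ) (hk : Odd k) (hk3 : 3 ≤ k) (a : ℕ) :
    7 ≤ c k (2 ^ (a + 1) : ℕ) ∧ c k (2 ^ (a + 1) : ℕ) % 8 = 7 ∧
      (k - 1) ∣ c k (2 ^ (a + 1) : ℕ) + 1 ∧ k ∣ c k (2 ^ (a + 1) : ℕ) ^ 2 - 4 := by
  induction a with
  | zero =>
    have e : c k ((2 ^ (0 + 1) : ℕ) : ℤ) = k ^ 2 - 2 := by
      have := c_double k 1
      rw [Nat.cast_one, c_one] at this
      simpa using this
    rw [e]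
    have h8 : k ^ 2 % 8 = 1 := odd_sq hk
    exact ⟨by nlinarith, by omega, ⟨k + 1, by ring⟩, ⟨k * (k ^ 2 - 4), by ring⟩⟩
  | succ a ih =>
    obtain ⟨h1, h2, h3, h4⟩ := ih
    have e : c k ((2 ^ (a + 1 + 1) : ℕ) : ℤ) = c k ((2 ^ (a + 1) : ℕ) : ℤ) ^ 2 - 2 := by
      have := c_double k (2 ^ (a + 1))
      rw [← this]
      congr 1
      push_cast
      ring
    rw [e]
    set M := c k ((2 ^ (a + 1) : ℕ) : ℤ) with hM
    have ho : Odd M := by rw [Int.odd_iff]; omega
    have h8 : M ^ 2 % 8 = 1 := odd_sq ho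
    refine ⟨by nlinarith, by omega, ?_, ?_⟩
    · have : M ^ 2 - 2 + 1 = (M + 1) * (M - 1) := by ring
      rw [this]; exact h3.mul_right _
    · have : (M ^ 2 - 2) ^ 2 - 4 = (M ^ 2 - 4) * M ^ 2 := by ring
      rw [this]; exact h4.mul_right _

theorem coprime_of {k M : ℤ} (hk : Odd k) (h : k ∣ M ^ 2 - 4) : IsCoprime k M := by
  obtain ⟨t, ht⟩ := h
  have h2 : IsCoprime k 2 := by
    obtain ⟨t, rfl⟩ := hk
    exact ⟨1, -t, by ring⟩
  have h4 : IsCoprime k (2 * 2) := h2.mul_right h2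
  obtain ⟨u, v, huv⟩ := h4
  refine ⟨u - v * t, v * M, ?_⟩
  linear_combination huv + v * ht

/-- The Jacobi symbol of `-1` -/
theorem jac_neg_one {M : ℕ} (hM : M % 8 = 7) : J(-1 | M) = -1 := by
  rw [jacobiSym.at_neg_one (Nat.odd_iff.2 (by omega)), ZMod.χ₄_nat_three_mod_four (by omega)]

theorem jac_two {M : ℕ} (hM : M % 8 = 7) : J(2 | M) = 1 := by
  rw [jacobiSym.at_two (Nat.odd_iff.2 (by omega)), ZMod.χ₈_nat_eq_if_mod_eight]
  have h2 : ¬ M % 2 = 0 := by omega
  simp [h2, hM]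

/-- The Jacobi symbol of a divisor of `M + 1` -/
theorem jac_dvd {M : ℕ} (hM : M % 8 = 7) {d : ℕ} (hd : d ≠ 0) (h : (d : ℤ) ∣ M + 1) :
    J(d | M) = 1 := by
  obtain ⟨e, m, hm, rfl⟩ := Nat.exists_eq_two_pow_mul_odd hd
  have hm' : (m : ℤ) ∣ M + 1 := (Dvd.intro_left _ (by push_cast; rfl)).trans h
  have h1 : J(M | m) = J(-1 | m) := by
    apply jacobiSym.mod_left'
    exact Int.ModEq.symm ((Int.modEq_iff_dvd).2 (by simpa using hm'))
  push_cast
  rw [jacobiSym.mul_left, jacobiSym.pow_left, jac_two hM, one_pow, one_mul]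
  have hm4 : m % 4 = 1 ∨ m % 4 = 3 := by rw [Nat.odd_iff] at hm; omega
  rcases hm4 with h4 | h4
  · rw [jacobiSym.quadratic_reciprocity_one_mod_four h4 (Nat.odd_iff.2 (by omega)), h1,
      jacobiSym.at_neg_one hm, ZMod.χ₄_nat_one_mod_four h4]
  · rw [jacobiSym.quadratic_reciprocity_three_mod_four h4 (by omega), h1,
      jacobiSym.at_neg_one hm, ZMod.χ₄_nat_three_mod_four h4]
    norm_num

/-- a square is not congruent to `- d` modulo `M` -/
theorem not_sq {M : ℕ} (hM : M % 8 = 7) {d : ℕ} (hd : d ≠ 0) (h : (d : ℤ) ∣ M + 1) (x : ℤ)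
    (hx : (M : ℤ) ∣ x ^ 2 + d) : False := by
  have h1 : J(x ^ 2 | M) = J(-d | M) := by
    apply jacobiSym.mod_left'
    exact Int.ModEq.symm ((Int.modEq_iff_dvd).2 (by simpa using hx))
  have h2 : J(-d | M) = -1 := by
    have : (-d : ℤ) = -1 * d := by ring
    rw [this, jacobiSym.mul_left, jac_neg_one hM, jac_dvd hM hd h]
    norm_num
  rw [h2, jacobiSym.pow_left] at h1
  nlinarith [sq_nonneg (J(x | M))]

theorem decomp (q : ℕ) (hq : q ≠ 0) : ∃ a i : ℕ, 4 * q = 2 * 2 ^ (a + 1) * (2 * i + 1) := by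
  obtain ⟨e, m, ⟨i, rfl⟩, h⟩ := Nat.exists_eq_two_pow_mul_odd hq
  exact ⟨e, i, by rw [h, pow_succ]; ring⟩

/-- terms of the form `f (r + 4 q)` -/
theorem mod_term (k : ℤ) (hk : Odd k) (hk3 : 3 ≤ k) (f : ℤ → ℤ)
    (hf : ∀ n, f (n + 2) = k * f (n + 1) - f n) (r : ℤ) (q : ℕ) (hq : q ≠ 0) :
    ∃ M : ℕ, M % 8 = 7 ∧ (k - 1) ∣ (M : ℤ) + 1 ∧ IsCoprime k M ∧
      (M : ℤ) ∣ f (r + 4 * q) + f r := by
  obtain ⟨a, i, h⟩ := decomp q hq
  obtain ⟨h1, h2, h3, h4⟩ := modulus k hk hk3 a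
  have h5 := shift_dvd k f hf (2 ^ (a + 1)) i r
  obtain ⟨M, hM⟩ := Int.eq_ofNat_of_zero_le (show 0 ≤ c k (2 ^ (a + 1) : ℕ) by omega)
  rw [hM] at h1 h2 h3 h4 h5
  refine ⟨M, by omega, h3, coprime_of hk h4, ?_⟩
  have e : (4 * q : ℤ) = 2 * ((2 ^ (a + 1) : ℕ) : ℤ) * (2 * i + 1) := by
    exact_mod_cast h
  rw [e]
  exact h5

theorem key (k : ℤ) (hk : Odd k) (hk3 : 3 ≤ k) (f : ℤ → ℤ)
    (hf : ∀ n, f (n + 2) = k * f (n + 1) - f n) (r : ℤ) (q : ℕ) (hq : q ≠ 0) (d : ℕ)
    (hd : d ≠ 0) (hfr : f r = d) (hdk : (d : ℤ) ∣ k - 1) (x : ℤ) (hx : f (r + 4 * q) = x ^ 2) :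
    False := by
  obtain ⟨M, h1, h2, -, h4⟩ := mod_term k hk hk3 f hf r q hq
  rw [hfr, hx] at h4
  exact not_sq h1 hd (hdk.trans h2) x h4

theorem key_c (k : ℤ) (hk : Odd k) (hk3 : 3 ≤ k) (r : ℤ) (q : ℕ) (hq : q ≠ 0)
    (hr : c k r = k) (x : ℤ) (hx : c k (r + 4 * q) = k * x ^ 2) : False := by
  obtain ⟨M, h1, h2, h3, h4⟩ := mod_term k hk hk3 (c k) (c_rec k) r q hq
  rw [hr, hx] at h4
  have h5 : (M : ℤ) ∣ k * (x ^ 2 + (1 : ℕ)) := by
    have e : k * (x ^ 2 + ((1 : ℕ) : ℤ)) = k * x ^ 2 + k := by push_cast; ring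
    rw [e]; exact h4
  exact not_sq h1 one_ne_zero (by simp) x (h3.symm.dvd_of_dvd_mul_left h5)

/-- the differences -/
noncomputable def b (k n : ℤ) : ℤ := s k n - s k (n - 1)

theorem b_rec (k n : ℤ) : b k (n + 2) = k * b k (n + 1) - b k n := by
  have h1 := s_rec k n
  have h2 := s_rec k (n - 1)
  have e1 : n + 2 - 1 = n - 1 + 2 := by ring
  have e2 : n - 1 + 1 = n := by ring
  have e3 : n + 1 - 1 = n := by ring
  rw [b, b, b, e1, h1, h2, e2, e3]
  ring

theorem b_zero (k : ℤ) : b k 0 = 1 := by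
  rw [b, zero_sub, s_zero, s_neg_one, sub_zero]

theorem b_one (k : ℤ) : b k 1 = k - 1 := by
  rw [b, sub_self, s_zero, s_one]

theorem b_neg_one (k : ℤ) : b k (-1) = 1 := by
  have e : (-1 : ℤ) - 1 = -2 := by norm_num
  rw [b, e, s_neg_one, s_neg_two]; norm_num

theorem b_neg_two (k : ℤ) : b k (-2) = k - 1 := by
  have h := b_rec k (-2)
  have e1 : (-2 : ℤ) + 2 = 0 := by norm_num
  have e2 : (-2 : ℤ) + 1 = -1 := by norm_num
  rw [e1, e2, b_zero, b_neg_one] at h
  linarith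

theorem b_not_sq (k : ℤ) (hk : Odd k) (hk3 : 3 ≤ k) (l : ℕ) (hl : 2 ≤ l) (x : ℤ) :
    b k l ≠ x ^ 2 := by
  intro hx
  obtain ⟨d, hd⟩ := Int.eq_ofNat_of_zero_le (show 0 ≤ k - 1 by omega)
  have hd0 : d ≠ 0 := by rintro rfl; simp at hd; omega
  have hdk : (d : ℤ) ∣ k - 1 := by rw [hd]
  have h4 : l % 4 = 0 ∨ l % 4 = 1 ∨ l % 4 = 2 ∨ l % 4 = 3 := by omega
  rcases h4 with h | h | h | h
  · refine key k hk hk3 (b k) (b_rec k) 0 (l / 4) (by omega) 1 one_ne_zero
      (by rw [b_zero]; rfl) (by simp) x ?_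
    rw [← hx]; congr 1; omega
  · refine key k hk hk3 (b k) (b_rec k) 1 (l / 4) (by omega) d hd0
      (by rw [b_one, hd]) hdk x ?_
    rw [← hx]; congr 1; omega
  · refine key k hk hk3 (b k) (b_rec k) (-2) (l / 4 + 1) (by omega) d hd0
      (by rw [b_neg_two, hd]) hdk x ?_
    rw [← hx]; congr 1; push_cast; omega
  · refine key k hk hk3 (b k) (b_rec k) (-1) (l / 4 + 1) (by omega) 1 one_ne_zero
      (by rw [b_neg_one]; rfl) (by simp) x ?_
    rw [← hx]; congr 1; push_cast; omega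

theorem cassini (k : ℤ) (n : ℕ) : s k n ^ 2 - s k (n + 1) * s k (n - 1) = 1 := by
  induction n with
  | zero => simp [s_zero, s_neg_one]
  | succ n ih =>
    have h1 := s_rec k n
    have h2 := s_rec k (n - 1)
    have e1 : (n : ℤ) - 1 + 2 = n + 1 := by ring
    have e2 : (n : ℤ) - 1 + 1 = n := by ring
    rw [e1, e2] at h2
    push_cast
    have e3 : (n : ℤ) + 1 + 1 = n + 2 := by ring
    have e4 : (n : ℤ) + 1 - 1 = n := by ring
    rw [e3, e4, h1]
    linear_combination ih + s k (n + 1) * h2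

theorem b_pos (k : ℤ) (hk3 : 3 ≤ k) (n : ℕ) : 0 < b k n ∧ b k n ≤ b k (n + 1) := by
  induction n with
  | zero => simp only [Nat.cast_zero, zero_add, b_zero, b_one]; omega
  | succ n ih =>
    have h := b_rec k n
    have e : ((n + 1 : ℕ) : ℤ) + 1 = n + 2 := by push_cast; ring
    rw [e, h]
    push_cast
    constructor
    · linarith [ih.1, ih.2]
    · nlinarith [ih.1, ih.2]

theorem c_pos (k : ℤ) (hk3 : 3 ≤ k) (n : ℕ) : 0 < c k n ∧ c k n ≤ c k (n + 1) := by
  induction n with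
  | zero => simp only [Nat.cast_zero, zero_add, c_zero, c_one]; omega
  | succ n ih =>
    have h := c_rec k n
    have e : ((n + 1 : ℕ) : ℤ) + 1 = n + 2 := by push_cast; ring
    rw [e, h]
    push_cast
    constructor
    · linarith [ih.1, ih.2]
    · nlinarith [ih.1, ih.2]

theorem b_mod (k : ℤ) : ∀ n : ℕ, k ∣ b k n ^ 2 - 1
  | 0 => by simp [b_zero]
  | 1 => by
    rw [Nat.cast_one, b_one]
    exact ⟨k - 2, by ring⟩
  | (n + 2) => by
    obtain ⟨t, ht⟩ := b_mod k n
    have h := b_rec k n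
    push_cast
    rw [h]
    exact ⟨k * b k (n + 1) ^ 2 - 2 * b k (n + 1) * b k n + t, by linear_combination ht⟩

theorem s_mod_even (k : ℤ) : ∀ n : ℕ, k ∣ s k (2 * n) ^ 2 - 1
  | 0 => by simp [s_zero]
  | (n + 1) => by
    obtain ⟨t, ht⟩ := s_mod_even k n
    have h := s_rec k (2 * n)
    have e : (2 * ((n + 1 : ℕ) : ℤ)) = 2 * n + 2 := by push_cast; ring
    rw [e, h]
    exact ⟨k * s k (2 * n + 1) ^ 2 - 2 * s k (2 * n + 1) * s k (2 * n) + t,
      by linear_combination ht⟩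

theorem s_mod_odd (k : ℤ) : ∀ n : ℕ, k ∣ s k (2 * n + 1)
  | 0 => by simp [s_one]
  | (n + 1) => by
    obtain ⟨t, ht⟩ := s_mod_odd k n
    have h := s_rec k (2 * n + 1)
    have e : (2 * ((n + 1 : ℕ) : ℤ)) + 1 = 2 * n + 1 + 2 := by push_cast; ring
    rw [e, h]
    exact ⟨s k (2 * n + 1 + 1) - t, by linear_combination -ht⟩

theorem c_eq (k n : ℤ) : c k n = 2 * s k n - k * s k (n - 1) := by
  simp [c, s, C_eq_S_sub_X_mul_S]

theorem c_big (k : ℤ) (hk3 : 3 ≤ k) (m : ℕ) (hm : 2 ≤ m) : k < c k m := by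
  induction m, hm using Nat.le_induction with
  | base =>
    have := c_rec k 0
    rw [zero_add, zero_add, c_one, c_zero] at this
    rw [show ((2 : ℕ) : ℤ) = 2 from rfl, this]
    nlinarith
  | succ n hn ih =>
    have := (c_pos k hk3 n).2
    push_cast
    linarith

theorem s_big (k : ℤ) (hk3 : 3 ≤ k) (m : ℕ) (hm : 2 ≤ m) :
    k < s k m ∧ s k m ≤ s k (m + 1) := by
  induction m, hm using Nat.le_induction with
  | base =>
    have h1 := s_rec k 0
    rw [zero_add, zero_add, s_one, s_zero] at h1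
    have h2 := s_rec k 1
    rw [show (1 : ℤ) + 2 = 2 + 1 from rfl, show (1 : ℤ) + 1 = 2 from rfl, s_one, h1] at h2
    rw [show ((2 : ℕ) : ℤ) = 2 from rfl, h2, h1]
    constructor
    · nlinarith
    · nlinarith [mul_pos (show (0 : ℤ) < k by omega) (show (0 : ℤ) < k * k - 1 by nlinarith)]
  | succ n hn ih =>
    have h := s_rec k n
    have e : ((n + 1 : ℕ) : ℤ) + 1 = n + 2 := by push_cast; ring
    rw [e, h]
    push_cast
    constructor
    · linarith [ih.1, ih.2]
    · nlinarith [ih.1, ih.2]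

theorem b_big (k : ℤ) (hk3 : 3 ≤ k) (n : ℕ) (hn : 1 ≤ n) : k - 1 ≤ b k n := by
  induction n, hn using Nat.le_induction with
  | base => rw [Nat.cast_one, b_one]
  | succ n hn ih =>
    have := (b_pos k hk3 n).2
    push_cast
    linarith

/-- what a square gives -/
def Fac (k l : ℤ) : Prop :=
  (Odd k → False) ∧ ∃ u v w : ℤ, IsCoprime u v ∧ 1 < u ∧ 1 < v ∧ u * v = w ^ 2 ∧ w ∣ l

/-- even index, both halves -/
theorem even_case (k : ℤ) (hk3 : 3 ≤ k) (m : ℕ) (hm : 2 ≤ m) (l : ℤ)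
    (h : c k m * s k m = l ^ 2) : Fac k l := by
  have hcas : IsCoprime (s k m) (s k (m - 1)) := by
    have := cassini k m
    exact ⟨s k m, -s k (m + 1), by linear_combination this⟩
  have hc := c_eq k m
  have hcp := (c_pos k hk3 m).1
  have hcb := c_big k hk3 m hm
  have hsb := (s_big k hk3 m hm).1
  rcases Nat.even_or_odd' m with ⟨n, rfl | rfl⟩
  · -- `m` even
    exfalso
    push_cast at *
    have h1 : IsCoprime (s k (2 * n)) k := by
      obtain ⟨t, ht⟩ := s_mod_even k n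
      exact ⟨s k (2 * n), -t, by linear_combination ht⟩
    have h2 : IsCoprime (c k (2 * n)) (s k (2 * n)) := by
      have h3 : IsCoprime (s k (2 * n)) (-(k * s k (2 * n - 1)) + s k (2 * n) * 2) :=
        IsCoprime.add_mul_left_right ((h1.mul_right hcas).neg_right) 2
      have e : c k (2 * n) = -(k * s k (2 * n - 1)) + s k (2 * n) * 2 := by
        rw [hc]; ring
      rw [e]; exact h3.symm
    obtain ⟨y, hy⟩ := Int.sq_of_isCoprime h2 h
    have hy1 : c k (2 * n) = y ^ 2 := by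
      rcases hy with hy | hy
      · exact hy
      · nlinarith [sq_nonneg y]
    have hd := c_double k n
    rw [hd] at hy1
    set u := c k n
    have h4 : (u ^ 2 - 2) % 4 = y ^ 2 % 4 := by rw [hy1]
    have hu : u % 4 = 0 ∨ u % 4 = 1 ∨ u % 4 = 2 ∨ u % 4 = 3 := by omega
    have hy' : y % 4 = 0 ∨ y % 4 = 1 ∨ y % 4 = 2 ∨ y % 4 = 3 := by omega
    rcases hu with hu | hu | hu | hu <;> rcases hy' with hy' | hy' | hy' | hy' <;>
      simp [pow_two, Int.mul_emod, Int.sub_emod, hu, hy'] at h4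
  · -- `m` odd
    push_cast at *
    have e0 : (2 * (n : ℤ) + 1 - 1) = 2 * n := by ring
    rw [e0] at hcas hc
    obtain ⟨s', hs'⟩ := s_mod_odd k n
    have hc' : c k (2 * n + 1) = k * (2 * s' - s k (2 * n)) := by
      rw [hc, hs']; ring
    set c' := 2 * s' - s k (2 * n) with hcdef
    rw [hs', hc'] at h
    have hk0 : k ≠ 0 := by omega
    have hkl : k ∣ l := by
      rw [← Int.pow_dvd_pow_iff (n := 2) (by norm_num)]
      exact ⟨c' * s', by rw [← h]; ring⟩
    obtain ⟨l', rfl⟩ := hkl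
    have h5 : c' * s' = l' ^ 2 := by
      have : k ^ 2 * (c' * s') = k ^ 2 * l' ^ 2 := by linear_combination h
      exact mul_left_cancel₀ (pow_ne_zero 2 hk0) this
    have h6 : IsCoprime s' (s k (2 * n)) := by
      rw [hs'] at hcas
      exact hcas.of_mul_left_right
    have h7 : IsCoprime c' s' := by
      have h8 : IsCoprime s' (-(s k (2 * n)) + s' * 2) :=
        IsCoprime.add_mul_left_right h6.neg_right 2
      have e : c' = -(s k (2 * n)) + s' * 2 := by rw [hcdef]; ring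
      rw [e]; exact h8.symm
    have hc1 : 1 < c' := by
      rw [hc'] at hcb
      by_contra hcon
      nlinarith
    have hs1 : 1 < s' := by
      rw [hs'] at hsb
      by_contra hcon
      nlinarith
    refine ⟨fun hk => ?_, c', s', l', h7, hc1, hs1, h5, Dvd.intro_left _ rfl⟩
    obtain ⟨y, hy⟩ := Int.sq_of_isCoprime h7 h5
    have hy1 : c' = y ^ 2 := by
      rcases hy with hy | hy
      · exact hy
      · nlinarith [sq_nonneg y]
    rw [hy1] at hc'
    rcases Nat.even_or_odd' n with ⟨q, rfl | rfl⟩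
    · refine key_c k hk hk3 1 q (by omega) (c_one k) y ?_
      rw [← hc']; congr 1; push_cast; ring
    · refine key_c k hk hk3 (-1) (q + 1) (by omega) (c_neg_one k) y ?_
      rw [← hc']; congr 1; push_cast; ring

theorem odd_case (k : ℤ) (hk3 : 3 ≤ k) (n : ℕ) (hn : 1 ≤ n) (l : ℤ)
    (h : b k n * (s k (n + 1) + s k n) = l ^ 2) : Fac k l := by
  have hcas : IsCoprime (s k n) (s k (n - 1)) := by
    have := cassini k n
    exact ⟨s k n, -s k (n + 1), by linear_combination this⟩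
  have h1 : IsCoprime (b k n) k := by
    obtain ⟨t, ht⟩ := b_mod k n
    exact ⟨b k n, -t, by linear_combination ht⟩
  have h2 : IsCoprime (b k n) (s k n) := by
    have h3 : IsCoprime (s k n) (-(s k (n - 1)) + s k n * 1) :=
      IsCoprime.add_mul_left_right hcas.neg_right 1
    have e : b k n = -(s k (n - 1)) + s k n * 1 := by rw [b]; ring
    rw [e]; exact h3.symm
  have h3 : IsCoprime (b k n) (s k (n + 1) + s k n) := by
    have h4 : IsCoprime (b k n) (k * s k n + b k n * 1) :=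
      IsCoprime.add_mul_left_right (h1.mul_right h2) 1
    have hr := s_rec k (n - 1)
    have e1 : (n : ℤ) - 1 + 2 = n + 1 := by ring
    have e2 : (n : ℤ) - 1 + 1 = n := by ring
    rw [e1, e2] at hr
    have e : s k (n + 1) + s k n = k * s k n + b k n * 1 := by rw [b, hr]; ring
    rw [e]; exact h4
  have hb1 : 1 < b k n := by linarith [b_big k hk3 n hn]
  have ha1 : 1 < s k (n + 1) + s k n := by
    rcases Nat.lt_or_ge n 2 with hn2 | hn2
    · have hn1 : n = 1 := by omega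
      subst hn1
      have h5 := (s_big k hk3 2 le_rfl).1
      rw [Nat.cast_one, s_one, show (1 : ℤ) + 1 = ((2 : ℕ) : ℤ) from rfl]
      linarith
    · have h5 := s_big k hk3 n hn2
      linarith [h5.1, h5.2]
  refine ⟨fun hk => ?_, b k n, s k (n + 1) + s k n, l, h3, hb1, ha1, h, dvd_refl l⟩
  rcases Nat.lt_or_ge n 2 with hn2 | hn2
  · have hn1 : n = 1 := by omega
    subst hn1
    have h4 := h3.symm
    have h5 : (s k ((1 : ℕ) + 1) + s k (1 : ℕ)) * b k (1 : ℕ) = l ^ 2 := by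
      rw [← h]; ring
    obtain ⟨y, hy⟩ := Int.sq_of_isCoprime h4 h5
    have e : s k ((1 : ℕ) + 1) + s k (1 : ℕ) = k ^ 2 + k - 1 := by
      have := s_rec k 0
      rw [zero_add, zero_add, s_one, s_zero] at this
      simp only [Nat.cast_one, s_one]
      have e2 : (1 : ℤ) + 1 = 2 := by norm_num
      rw [e2, this]; ring
    rw [e] at hy
    have hy1 : k ^ 2 + k - 1 = y ^ 2 := by
      rcases hy with hy | hy
      · exact hy
      · nlinarith [sq_nonneg y]
    have ha : k < |y| := by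
      apply lt_of_pow_lt_pow_left₀ 2 (abs_nonneg y)
      rw [sq_abs]; nlinarith
    have hb : |y| < k + 1 := by
      apply lt_of_pow_lt_pow_left₀ 2 (by omega)
      rw [sq_abs]; nlinarith
    omega
  · obtain ⟨y, hy⟩ := Int.sq_of_isCoprime h3 h
    rcases hy with hy | hy
    · exact b_not_sq k hk hk3 n hn2 y hy
    · nlinarith [sq_nonneg y]

theorem main (k : ℤ) (hk3 : 3 ≤ k) (j : ℕ) (hj : 3 ≤ j) (l : ℤ) (h : G k j + 1 = l ^ 2) :
    Fac k l := by
  rw [G_eq] at h
  rcases Nat.even_or_odd' j with ⟨m, rfl | rfl⟩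
  · have h1 := shift k (s k) (s_rec k) m m
    rw [sub_self, s_zero] at h1
    have e : (m : ℤ) + m = ((2 * m : ℕ) : ℤ) := by push_cast; ring
    rw [e, h] at h1
    exact even_case k hk3 m (by omega) l h1.symm
  · have h1 := shift k (s k) (s_rec k) (m + 1) m
    have e : (m : ℤ) + ((m + 1 : ℕ) : ℤ) = ((2 * m + 1 : ℕ) : ℤ) := by push_cast; ring
    have e' : (m : ℤ) - ((m + 1 : ℕ) : ℤ) = -1 := by push_cast; ring
    rw [e, e', s_neg_one, add_zero] at h1
    rw [h1] at h
    have hc := c_eq k ((m + 1 : ℕ) : ℤ)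
    have e2 : ((m + 1 : ℕ) : ℤ) - 1 = m := by push_cast; ring
    have e3 : ((m + 1 : ℕ) : ℤ) = m + 1 := by push_cast; ring
    rw [e2, e3] at hc
    rw [e3] at h
    have hr := s_rec k (m - 1)
    have e4 : (m : ℤ) - 1 + 2 = m + 1 := by ring
    have e5 : (m : ℤ) - 1 + 1 = m := by ring
    rw [e4, e5] at hr
    have hcas := cassini k m
    refine odd_case k hk3 m (by omega) l ?_
    rw [← h, hc, b]
    linear_combination hcas - s k m * hr

theorem dvd_of {p : ℕ} (hp : p.Prime) (m : ℕ) (x : ℤ) (hx : 1 < x) (h : x ∣ (p : ℤ) ^ m) :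
    (p : ℤ) ∣ x := by
  obtain ⟨y, rfl⟩ := Int.eq_ofNat_of_zero_le (show 0 ≤ x by omega)
  have h' : y ∣ p ^ m := by exact_mod_cast h
  obtain ⟨i, -, rfl⟩ := (Nat.dvd_prime_pow hp).1 h'
  have hi : i ≠ 0 := by rintro rfl; simp at hx
  exact_mod_cast dvd_pow_self p hi

theorem not_primePow {k : ℤ} {l : ℕ} (h : Fac k l) : ¬ IsPrimePow l := by
  intro hl
  obtain ⟨-, u, v, w, h1, h2, h3, h4, h5⟩ := h
  obtain ⟨p, e, hp, -, rfl⟩ := (isPrimePow_nat_iff l).1 hl
  have h6 : w ^ 2 ∣ (p : ℤ) ^ (e * 2) := by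
    rw [pow_mul]
    exact pow_dvd_pow_of_dvd (by exact_mod_cast h5) 2
  have h7 : u ∣ (p : ℤ) ^ (e * 2) := (Dvd.intro _ h4).trans h6
  have h8 : v ∣ (p : ℤ) ^ (e * 2) := (Dvd.intro_left _ h4).trans h6
  have h9 := h1.isUnit_of_dvd' (dvd_of hp _ u h2 h7) (dvd_of hp _ v h3 h8)
  have := Int.isUnit_iff.1 h9
  have hp2 := hp.two_le
  omega

/-- the chain reformulation -/
theorem chain (z : ℤ) : ∀ (a : ℕ) (n : ℤ), 0 < a → (a : ℤ) < n →
    n ^ 2 + a ^ 2 - 1 = z * a * n → ∃ i : ℕ, (a : ℤ) = G z i ∧ n = G z (i + 1) := by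
  intro a
  induction a using Nat.strong_induction_on with
  | _ a ih =>
    intro n ha han h
    rcases Nat.lt_or_ge 1 a with h1 | h1
    · -- descend
      have e : n * (z * a - n) = a ^ 2 - 1 := by linear_combination -h
      have ha' : (1 : ℤ) < a := by exact_mod_cast h1
      have hpos : 0 < z * a - n := by
        by_contra hcon
        nlinarith
      have hlt : z * a - n < a := by
        by_contra hcon
        nlinarith
      obtain ⟨a', ha'e⟩ := Int.eq_ofNat_of_zero_le hpos.le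
      have e1 : (a : ℤ) ^ 2 + a' ^ 2 - 1 = z * a' * a := by
        have : (a' : ℤ) = z * a - n := ha'e.symm
        rw [this]
        linear_combination -e
      have hl' : a' < a := by
        have : (a' : ℤ) < a := by rw [show (a' : ℤ) = z * a - n from ha'e.symm]; exact hlt
        exact_mod_cast this
      have hp' : 0 < a' := by
        have : (0 : ℤ) < a' := by rw [show (a' : ℤ) = z * a - n from ha'e.symm]; exact hpos
        exact_mod_cast this
      obtain ⟨i, hi1, hi2⟩ := ih a' hl' a hp' (by exact_mod_cast hl') e1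
      refine ⟨i + 1, hi2, ?_⟩
      rw [G, ← hi2, ← hi1, show (a' : ℤ) = z * a - n from ha'e.symm]
      ring
    · have h2 : a = 1 := by omega
      subst h2
      refine ⟨0, by simp [G], ?_⟩
      have hn : n ≠ 0 := by simp at han; omega
      have : n * n = z * n := by push_cast at h; linear_combination h
      simpa [G] using mul_right_cancel₀ hn this

/-- The set in the problem. -/
def A (n : ℕ) : Finset ℕ :=
  (Finset.Ico 1 n).filter fun a => (n : ℤ) ∣ (a : ℤ) ^ 2 - 1 ∧ (a : ℤ) ∣ (n : ℤ) ^ 2 - 1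

theorem member (n l a : ℕ) (hn : n + 1 = l ^ 2) (ha : a ∈ A n) (h1 : a ≠ 1) (h2 : a ≠ l)
    (h3 : a ≠ n - 1) : ∃ z : ℤ, 3 ≤ z ∧ (n : ℤ) ^ 2 + a ^ 2 - 1 = z * a * n ∧
      (∃ j : ℕ, 3 ≤ j ∧ (n : ℤ) = G z j) ∧ Fac z l := by
  rw [A, Finset.mem_filter, Finset.mem_Ico] at ha
  obtain ⟨⟨ha1, ha2⟩, ⟨t, ht⟩, ⟨r, hr⟩⟩ := ha
  have hcop : IsCoprime (a : ℤ) n := ⟨a, -t, by linear_combination ht⟩
  have hd : (a : ℤ) * n ∣ (n : ℤ) ^ 2 + a ^ 2 - 1 :=
    hcop.mul_dvd ⟨r + a, by linear_combination hr⟩ ⟨n + t, by linear_combination ht⟩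
  obtain ⟨z, hz⟩ := hd
  have hz' : (n : ℤ) ^ 2 + a ^ 2 - 1 = z * a * n := by rw [hz]; ring
  have hza : (a : ℤ) + 2 ≤ n := by omega
  have hz3 : 3 ≤ z := by
    by_contra hcon
    have hz2 : z ≤ 2 := by omega
    have hpos : (0 : ℤ) < a * n := by
      apply mul_pos <;> exact_mod_cast (by omega)
    nlinarith
  obtain ⟨i, hi1, hi2⟩ := chain z a n (by omega) (by omega) hz'
  have hi : 2 ≤ i := by
    by_contra hcon
    rcases (show i = 0 ∨ i = 1 by omega) with rfl | rfl
    · simp [G] at hi1; omega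
    · simp only [G] at hi1 hi2
      have h5 : (a : ℤ) ^ 2 = (l : ℤ) ^ 2 := by
        have : (n : ℤ) + 1 = (l : ℤ) ^ 2 := by exact_mod_cast hn
        rw [← this, hi2, hi1]; ring
      have h6 : a ^ 2 = l ^ 2 := by exact_mod_cast h5
      exact h2 (Nat.pow_left_injective (by norm_num) h6)
  refine ⟨z, hz3, hz', ⟨i + 1, by omega, hi2⟩, main z hz3 (i + 1) (by omega) l ?_⟩
  rw [← hi2]
  exact_mod_cast hn

/-- **Integers `n` such that `n + 1` is a square.**  If `n + 1` is the square of a prime power,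
then the set of the problem has at most three members.  If `n + 1 = l ^ 2` for any `l`, and the
set has a member `a` other than `1`, `l` and `n - 1`, then the integer
`z = (n ^ 2 + a ^ 2 - 1) / (a n)` is even.  In terms of chains: `l ^ 2 - 1` is never a term of
index `≥ 3` of the chain of an odd integer `k ≥ 3`, and no chain has such a term if `l` is a
prime power. -/
theorem result :
    (∀ n l : ℕ, IsPrimePow l → n + 1 = l ^ 2 → (A n).card ≤ 3) ∧
    (∀ n l a : ℕ, n + 1 = l ^ 2 → a ∈ A n → a ≠ 1 → a ≠ l → a ≠ n - 1 →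
      ∃ z : ℤ, Even z ∧ (n : ℤ) ^ 2 + (a : ℤ) ^ 2 - 1 = z * a * n) ∧
    (∀ (k : ℤ) (l j : ℕ), 3 ≤ k → 3 ≤ j → (Odd k ∨ IsPrimePow l) → G k j ≠ (l : ℤ) ^ 2 - 1) := by
  refine ⟨fun n l hl hn => ?_, fun n l a hn ha h1 h2 h3 => ?_, fun k l j hk hj h e => ?_⟩
  · have hsub : A n ⊆ {1, l, n - 1} := by
      intro a ha
      simp only [Finset.mem_insert, Finset.mem_singleton]
      by_contra hcon
      push Not at hcon
      obtain ⟨z, -, -, -, hf⟩ := member n l a hn ha hcon.1 hcon.2.1 hcon.2.2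
      exact not_primePow hf hl
    exact (Finset.card_le_card hsub).trans Finset.card_le_three
  · obtain ⟨z, -, hz, -, hf⟩ := member n l a hn ha h1 h2 h3
    exact ⟨z, by rw [← Int.not_odd_iff_even]; exact hf.1, hz⟩
  · have hf : Fac k l := main k hk j hj l (by rw [e]; ring)
    rcases h with h | h
    · exact hf.1 h
    · exact not_primePow hf h

end Pool.Agent.Results.MP_83ba34_nt.SquareSuccessors
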